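import Mathlib

set_option autoImplicit false

namespace Pool.Agent.MP_6428c8_nt.H77

open Finset Polynomial

/-- Artin-Schreier dichotomy. -/
theorem AS_lemma {L : Type*} [Field L] (p : ℕ) [hp : Fact p.Prime] [CharP L p] (K : Subfield L)
    (g : L) (hc : g ^ p - g ∈ K) (α : Fin p → L) (hα : ∀ i, α i ∈ K) (h0 : ∃ i, α i ≠ 0)
    (hroot : ∑ i, α i * g ^ (i : ℕ) = 0) : g ∈ K := by
  classical
  set P : K[X] := ∑ i : Fin p, monomial (i : ℕ) (⟨α i, hα i⟩ : K) with hP
  have hPc : ∀ i : Fin p, P.coeff i = ⟨α i, hα i⟩ := by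
    intro i
    simp only [hP, finsetSum_coeff, coeff_monomial]
    rw [Finset.sum_eq_single i]
    · simp
    · intro c _ hc; rw [if_neg]; exact fun h => hc (Fin.ext h)
    · simp
  have hP0 : P ≠ 0 := by
    obtain ⟨i, hi⟩ := h0
    intro h
    have := hPc i
    rw [h, coeff_zero] at this
    exact hi (congrArg Subtype.val this).symm
  have hPd : P.natDegree < p := by
    have : P.natDegree ≤ p - 1 := by
      refine natDegree_sum_le_of_forall_le _ _ fun i _ => (natDegree_monomial_le _).trans ?_
      have := i.2; omega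
    have := hp.out.pos; omega
  have hPr : aeval g P = 0 := by
    rw [hP, map_sum]
    simp only [aeval_monomial]
    exact hroot
  have hint : IsIntegral K g := (isAlgebraic_iff_isIntegral).mp ⟨P, hP0, hPr⟩
  have hd1 : (minpoly K g).natDegree < p :=
    lt_of_le_of_lt (natDegree_le_natDegree (minpoly.degree_le_of_ne_zero K g hP0 hPr)) hPd
  have hd0 : 0 < (minpoly K g).natDegree := minpoly.natDegree_pos hint
  have hdvd : minpoly K g ∣ X ^ p - X - C (⟨g ^ p - g, hc⟩ : K) := by
    apply minpoly.dvd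
    simp only [map_sub, map_pow, aeval_X, aeval_C]
    show g ^ p - g - (g ^ p - g) = 0
    ring
  set m := (minpoly K g).map (algebraMap K L) with hm
  have hQ : (X ^ p - X - C (⟨g ^ p - g, hc⟩ : K)).map (algebraMap K L) =
      (X ^ p - X : L[X]).comp (X - C g) := by
    simp only [Polynomial.map_sub, Polynomial.map_pow, map_X, map_C, sub_comp, pow_comp, X_comp]
    rw [sub_pow_char, ← C_pow]
    show X ^ p - X - C (g ^ p - g) = _
    rw [C_sub]; ring
  have hdvd' : m ∣ (X ^ p - X : L[X]).comp (X - C g) := hQ ▸ Polynomial.map_dvd _ hdvd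
  have hs0 : Splits (X ^ p - X : L[X]) := by
    have := (Subfield.splits_bot L p).map (Subfield.subtype _)
    simpa using this
  have hne : (X ^ p - X : L[X]).comp (X - C g) ≠ 0 := by
    intro h
    have h2 := congrArg natDegree h
    rw [natDegree_comp, natDegree_X_sub_C, FiniteField.X_pow_card_sub_X_natDegree_eq L hp.out.one_lt]
      at h2
    have := hp.out.pos
    simp at h2; omega
  have hs : Splits m := (hs0.comp_X_sub_C g).of_dvd hne hdvd'
  have hmon : m.Monic := (minpoly.monic hint).map _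
  have hnext := hs.nextCoeff_eq_neg_sum_roots_of_monic hmon
  have hcard : m.roots.card = (minpoly K g).natDegree := by
    rw [← hs.natDegree_eq_card_roots, hm, natDegree_map]
  have hnK : m.nextCoeff ∈ K := by
    rw [hm, nextCoeff_map (algebraMap K L).injective]
    exact Subtype.property _
  have hr : ∀ ρ ∈ m.roots, ρ - g ∈ K := by
    intro ρ hρ
    have h1 : IsRoot ((X ^ p - X : L[X]).comp (X - C g)) ρ := (isRoot_of_mem_roots hρ).dvd hdvd'
    have h2 : (ρ - g) ^ p = ρ - g := by
      simpa [IsRoot, eval_comp, sub_eq_zero] using h1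
    exact (bot_le : (⊥ : Subfield L) ≤ K) ((Subfield.mem_bot_iff_pow_eq_self L p).mpr h2)
  have hsum : (m.roots.map fun ρ => ρ - g).sum ∈ K := by
    refine multiset_sum_mem _ fun a ha => ?_
    obtain ⟨ρ, hρ, rfl⟩ := Multiset.mem_map.mp ha
    exact hr ρ hρ
  rw [Multiset.sum_map_sub, Multiset.map_id', Multiset.map_const', Multiset.sum_replicate, hcard,
    nsmul_eq_mul] at hsum
  have hdK : (((minpoly K g).natDegree : ℕ) : L) ≠ 0 := by
    rw [Ne, CharP.cast_eq_zero_iff L p]
    exact Nat.not_dvd_of_pos_of_lt hd0 hd1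
  have h3 : (((minpoly K g).natDegree : ℕ) : L) * g ∈ K := by
    have := K.sub_mem (K.neg_mem hnK) hsum
    rw [hnext] at this
    simpa using this
  have h4 := K.mul_mem (K.inv_mem (natCast_mem K (minpoly K g).natDegree)) h3
  rwa [← mul_assoc, inv_mul_cancel₀ hdK, one_mul] at h4

end Pool.Agent.MP_6428c8_nt.H77
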