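import Pool.Agent.MP_6428c8_nt.H77.Tower0

set_option autoImplicit false

namespace Pool.Agent.MP_6428c8_nt.H77

open Finset Polynomial

variable (p : ℕ) [hp : Fact p.Prime]

/-- the function `x ↦ ∑ x ^ (p ^ j)` -/
noncomputable def FF (x : ℝ) : ℝ := ∑' j : ℕ, x ^ (p ^ j)

variable {p}

theorem term_le {x : ℝ} (h0 : 0 ≤ x) (h1 : x ≤ 1 / 2) (j : ℕ) : x ^ (p ^ j) ≤ x * (1 / 2) ^ j := by
  have h2 : j + 1 ≤ p ^ j := Nat.lt_pow_self hp.out.one_lt
  calc x ^ (p ^ j) ≤ x ^ (j + 1) := pow_le_pow_of_le_one h0 (by linarith) h2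
    _ = x * x ^ j := by ring
    _ ≤ x * (1 / 2) ^ j := by gcongr

theorem FF_summable {x : ℝ} (h0 : 0 ≤ x) (h1 : x ≤ 1 / 2) : Summable fun j : ℕ => x ^ (p ^ j) :=
  Summable.of_nonneg_of_le (fun _ => by positivity) (term_le h0 h1)
    (summable_geometric_two.mul_left x)

theorem FF_nonneg {x : ℝ} (h0 : 0 ≤ x) : 0 ≤ FF p x := tsum_nonneg fun _ => by positivity

theorem FF_le {x : ℝ} (h0 : 0 ≤ x) (h1 : x ≤ 1 / 2) : FF p x ≤ 2 * x := by
  have := (FF_summable (p := p) h0 h1).tsum_le_tsum (term_le h0 h1) (summable_geometric_two.mul_left x)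
  rw [tsum_mul_left, tsum_geometric_two] at this
  rw [mul_comm]; exact this

theorem FF_split {x : ℝ} (h0 : 0 ≤ x) (h1 : x ≤ 1 / 2) (J : ℕ) :
    FF p x = ∑ j ∈ range J, x ^ (p ^ j) + FF p (x ^ (p ^ J)) := by
  rw [FF, ← (FF_summable (p := p) h0 h1).sum_add_tsum_nat_add J, FF]
  congr 1
  exact tsum_congr fun j => by rw [← pow_mul, ← pow_add, add_comm]

theorem pow_le_half {x : ℝ} (h0 : 0 ≤ x) (h1 : x ≤ 1 / 2) (J : ℕ) : x ^ (p ^ J) ≤ 1 / 2 :=
  (pow_le_of_le_one h0 (by linarith) (pow_pos hp.out.pos J).ne').trans h1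

theorem FF_pos {x : ℝ} (h0 : 0 < x) (h1 : x ≤ 1 / 2) : 0 < FF p x := by
  rw [FF_split h0.le h1 1]
  have := FF_nonneg (p := p) (x := x ^ (p ^ 1)) (by positivity)
  simp only [range_one, sum_singleton, pow_zero, pow_one] at this ⊢
  linarith

theorem poly_bound (A : ℤ[X]) : ∃ c : ℝ, 0 ≤ c ∧ ∀ x : ℝ, |x| ≤ 1 → |aeval x A| ≤ c := by
  refine ⟨∑ i ∈ range (A.natDegree + 1), |(A.coeff i : ℝ)|, by positivity, fun x hx => ?_⟩
  rw [aeval_eq_sum_range]
  refine (Finset.abs_sum_le_sum_abs _ _).trans (Finset.sum_le_sum fun i _ => ?_)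
  rw [zsmul_eq_mul, abs_mul, abs_pow]
  exact mul_le_of_le_one_right (abs_nonneg _) (pow_le_one₀ (abs_nonneg _) hx)

theorem f0_trunc (J : ℕ) :
    PowerSeries.X ^ (p ^ J) ∣ f0 p - ∑ j ∈ range J, PowerSeries.X ^ (p ^ j) := by
  induction J with
  | zero =>
    simp only [pow_zero, pow_one, range_zero, sum_empty, sub_zero]
    rw [PowerSeries.X_dvd_iff, ← PowerSeries.coeff_zero_eq_constantCoeff_apply, f0,
      PowerSeries.coeff_mk, if_neg]
    rintro ⟨j, hj⟩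
    exact (pow_pos hp.out.pos j).ne hj
  | succ J ih =>
    have := map_dvd (phi p) ih
    rw [map_pow, phi_X, ← pow_mul, ← pow_succ', map_sub, map_sum] at this
    convert this using 1
    rw [Finset.sum_range_succ']
    simp only [map_pow, phi_X, ← pow_mul, ← pow_succ', pow_zero, pow_one]
    linear_combination f0_eq p

theorem small_value {N Q : ℕ} (A : Fin N → ℤ[X])
    (h : PowerSeries.X ^ Q ∣ ∑ b, (A b : PowerSeries ℤ) * f0 p ^ (b : ℕ)) :
    ∃ c : ℝ, 0 ≤ c ∧ ∀ x : ℝ, 0 ≤ x → x ≤ 1 / 2 →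
      |∑ b, aeval x (A b) * FF p x ^ (b : ℕ)| ≤ c * x ^ Q := by
  set fJ : ℤ[X] := ∑ j ∈ range Q, X ^ (p ^ j) with hfJ
  have hQ : Q ≤ p ^ Q := (Nat.lt_pow_self hp.out.one_lt).le
  have h1 : PowerSeries.X ^ Q ∣ f0 p - (fJ : PowerSeries ℤ) := by
    refine (pow_dvd_pow _ hQ).trans ?_
    convert f0_trunc (p := p) Q using 2
    rw [hfJ, ← Polynomial.coeToPowerSeries.ringHom_apply, map_sum]
    simp
  set G : ℤ[X] := ∑ b, A b * fJ ^ (b : ℕ) with hG
  have h2 : PowerSeries.X ^ Q ∣ (G : PowerSeries ℤ) := by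
    have e : (G : PowerSeries ℤ) = ∑ b, (A b : PowerSeries ℤ) * f0 p ^ (b : ℕ) -
        ∑ b, (A b : PowerSeries ℤ) * (f0 p ^ (b : ℕ) - (fJ : PowerSeries ℤ) ^ (b : ℕ)) := by
      rw [hG, ← Polynomial.coeToPowerSeries.ringHom_apply, map_sum, ← Finset.sum_sub_distrib]
      refine Finset.sum_congr rfl fun b _ => ?_
      rw [map_mul, map_pow]
      simp only [Polynomial.coeToPowerSeries.ringHom_apply]; ring
    rw [e]
    exact h.sub (Finset.dvd_sum fun b _ => (h1.trans (sub_dvd_pow_sub_pow _ _ _)).mul_left _)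
  have h3 : X ^ Q ∣ G := by
    rw [Polynomial.X_pow_dvd_iff]
    intro d hd
    have := PowerSeries.X_pow_dvd_iff.mp h2 d hd
    rwa [Polynomial.coeff_coe] at this
  obtain ⟨G', hG'⟩ := h3
  obtain ⟨c1, hc1, b1⟩ := poly_bound G'
  choose c hc bc using fun b => poly_bound (A b)
  refine ⟨c1 + ∑ b, c b * (2 * b), add_nonneg hc1 (Finset.sum_nonneg fun b _ => by
    have := hc b; positivity), fun x h0 hx => ?_⟩
  have hx1 : |x| ≤ 1 := by rw [abs_of_nonneg h0]; linarith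
  set y := aeval x fJ with hy
  have hy' : y = ∑ j ∈ range Q, x ^ (p ^ j) := by rw [hy, hfJ]; simp
  have hsp := FF_split (p := p) h0 hx Q
  rw [← hy'] at hsp
  have t0 := FF_nonneg (p := p) (x := x ^ (p ^ Q)) (by positivity)
  have t1 := FF_le (p := p) (x := x ^ (p ^ Q)) (by positivity) (pow_le_half h0 hx Q)
  have t2 : x ^ (p ^ Q) ≤ x ^ Q := pow_le_pow_of_le_one h0 (by linarith) hQ
  have t3 := FF_le (p := p) h0 hx
  have t4 := FF_nonneg (p := p) h0
  have hy0 : 0 ≤ y := by rw [hy']; positivity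
  have e : ∑ b, aeval x (A b) * FF p x ^ (b : ℕ) =
      x ^ Q * aeval x G' + ∑ b, aeval x (A b) * (FF p x ^ (b : ℕ) - y ^ (b : ℕ)) := by
    have : x ^ Q * aeval x G' = ∑ b, aeval x (A b) * y ^ (b : ℕ) := by
      have := congrArg (aeval x) hG'
      rw [map_mul, map_pow, aeval_X, hG, map_sum] at this
      rw [← this]; simp [hy]
    rw [this, ← Finset.sum_add_distrib]
    exact Finset.sum_congr rfl fun b _ => by ring
  rw [e, add_mul, Finset.sum_mul]
  refine (abs_add_le _ _).trans (add_le_add ?_ ((Finset.abs_sum_le_sum_abs _ _).trans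
    (Finset.sum_le_sum fun b _ => ?_)))
  · rw [abs_mul, abs_of_nonneg (by positivity), mul_comm]
    exact mul_le_mul_of_nonneg_right (b1 x hx1) (by positivity)
  · rw [abs_mul, mul_assoc]
    refine mul_le_mul (bc b x hx1) ?_ (abs_nonneg _) (hc b)
    refine (abs_pow_sub_pow_le _ _ _).trans ?_
    have m1 : max |FF p x| |y| ^ ((b : ℕ) - 1) ≤ 1 := by
      refine pow_le_one₀ (by positivity) (max_le ?_ ?_)
      · rw [abs_of_nonneg t4]; linarith
      · rw [abs_of_nonneg hy0]; linarith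
    have m2 : |FF p x - y| ≤ 2 * x ^ Q := by
      rw [abs_of_nonneg (by linarith)]; linarith
    calc |FF p x - y| * (b : ℕ) * max |FF p x| |y| ^ ((b : ℕ) - 1)
        ≤ 2 * x ^ Q * (b : ℕ) * 1 := by gcongr
      _ = _ := by ring

theorem scaled_int (A : ℤ[X]) {L : ℕ} (hA : A.natDegree ≤ L) (s d : ℤ) (hd : d ≠ 0) :
    ∃ n : ℤ, (n : ℝ) = (d : ℝ) ^ L * aeval ((s : ℝ) / d) A := by
  refine ⟨∑ i ∈ range (L + 1), A.coeff i * s ^ i * d ^ (L - i), ?_⟩
  rw [aeval_eq_sum_range' (Nat.lt_succ_of_le hA), Finset.mul_sum]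
  push_cast
  refine Finset.sum_congr rfl fun i hi => ?_
  have hi' : i ≤ L := Nat.lt_succ_iff.mp (mem_range.mp hi)
  have hd' : (d : ℝ) ≠ 0 := by exact_mod_cast hd
  obtain ⟨t, rfl⟩ := Nat.exists_eq_add_of_le hi'
  rw [zsmul_eq_mul, div_pow, Nat.add_sub_cancel_left, pow_add]
  field_simp

theorem hasse_bound (P : ℤ[X]) {M : ℕ} (hP : P.natDegree ≤ M) {H : ℝ}
    (hH : ∀ i, |(P.coeff i : ℝ)| ≤ H) (b : ℕ) {S : ℝ} (hS : |S| ≤ 1) (hb : b ≤ M) :
    |aeval S (hasseDeriv b P)| ≤ (M + 1) * 2 ^ (2 * M) * H := by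
  have hd : (hasseDeriv b P).natDegree < M + 1 :=
    Nat.lt_succ_of_le ((natDegree_hasseDeriv_le _ _).trans (by omega))
  rw [aeval_eq_sum_range' hd]
  refine (Finset.abs_sum_le_sum_abs _ _).trans ?_
  have : ∀ i ∈ range (M + 1), |(hasseDeriv b P).coeff i • S ^ i| ≤ 2 ^ (2 * M) * H := by
    intro i hi
    have hi' : i ≤ M := Nat.lt_succ_iff.mp (mem_range.mp hi)
    rw [zsmul_eq_mul, abs_mul, abs_pow, hasseDeriv_coeff]
    push_cast
    rw [abs_mul, Nat.abs_cast]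
    have h1 : ((i + b).choose b : ℝ) ≤ 2 ^ (2 * M) := by
      have : (i + b).choose b ≤ 2 ^ (2 * M) :=
        (Nat.choose_le_two_pow _ _).trans (Nat.pow_le_pow_right (by norm_num) (by omega))
      exact_mod_cast this
    have h2 : |S| ^ i ≤ 1 := pow_le_one₀ (abs_nonneg _) hS
    calc _ ≤ 2 ^ (2 * M) * H * 1 := by
          have := hH (i + b)
          gcongr
          exact mul_nonneg (by positivity) ((abs_nonneg _).trans this)
      _ = _ := mul_one _
  refine (Finset.sum_le_sum this).trans (le_of_eq ?_)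
  rw [Finset.sum_const, card_range, nsmul_eq_mul]; push_cast; ring

end Pool.Agent.MP_6428c8_nt.H77
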