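import Pool.Agent.MP_6428c8_nt.H77.Est

set_option autoImplicit false

namespace Pool.Agent.MP_6428c8_nt.H77

open Finset PowerSeries

variable {p : ℕ} [hp : Fact p.Prime]

theorem lin_ne_zero (hp100 : 100 ≤ p) {r : ℕ} (hI : Indep p r) :
    ∀ (H : ℕ) {a0 a1 : (ZMod p)⟦X⟧}, FW p r H a0 → FW p r H a1 → a1 ≠ 0 →
      a0 + a1 * gp p r ≠ 0 := by
  intro H
  induction H using Nat.strong_induction_on with
  | _ H ih =>
    intro a0 a1 h0 h1 ha hz
    have hq : 0 < p ^ r := pow_pos hp.out.pos r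
    have hd := lin_degenerate hI h0 h1 ha (by rw [hz]; simp)
    obtain ⟨b0, b1, b2, k0, k1, -, -, k3, k4⟩ := cart_step h0 h1 (InF.zero _) (Or.inr ha)
    obtain ⟨rfl, hb1⟩ := k3 rfl
    refine ih _ (desc_lt hp100 hq hd) k0 k1 hb1 ?_
    ext n
    have := k4 (p * (n + 1)) (by rw [hz]; simp)
    rw [Nat.mul_div_cancel_left _ hp.out.pos, X_pow_dvd_iff] at this
    simpa using this n (Nat.lt_succ_self n)

theorem exists_FW_sum {r : ℕ} (A : I p r → Polynomial (ZMod p)) {ν : ℕ}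
    (hA : ∀ n, (A n).natDegree ≤ ν) :
    FW p r (p * ν + p ^ r : ℕ) (∑ n, (A n : (ZMod p)⟦X⟧) * bas p (gp p) r n) := by
  refine InF.sum _ fun n _ => InF.mul' (poly_mem (by positivity) (A n)) (bas_mem_FW n) ?_
  have : ((A n).natDegree : ℤ) ≤ ν := by exact_mod_cast hA n
  have hp0 : (0 : ℤ) ≤ p := by positivity
  push_cast; nlinarith

variable (p) in
/-- the ring of level `r` -/
def Rsub (r : ℕ) : Subring (ZMod p)⟦X⟧ where
  carrier := {x | ∃ w : ℕ, FW p r w x}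
  mul_mem' := by
    rintro a b ⟨w, ha⟩ ⟨w', hb⟩
    exact ⟨w + w', InF.mul' ha hb (by simp)⟩
  one_mem' := ⟨0, InF.one (by simp)⟩
  add_mem' := by
    rintro a b ⟨w, ha⟩ ⟨w', hb⟩
    exact ⟨w + w', InF.add (ha.mono (by simp)) (hb.mono (by simp))⟩
  zero_mem' := ⟨0, InF.zero _⟩
  neg_mem' := by
    rintro a ⟨w, ha⟩
    exact ⟨w, ha.neg⟩

theorem indep_step (hp100 : 100 ≤ p) {r : ℕ} (hI : Indep p r) (α : Fin p → (ZMod p)⟦X⟧)
    (hα : ∀ i, α i ∈ Rsub p r) (h : ∑ i, α i * gp p r ^ (i : ℕ) = 0) : ∀ i, α i = 0 := by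
  by_contra hne
  push Not at hne
  set L := FractionRing (ZMod p)⟦X⟧
  set ι := algebraMap (ZMod p)⟦X⟧ L with hι
  have inj : Function.Injective ι := IsFractionRing.injective _ _
  have : CharP L p := charP_of_injective_ringHom inj p
  set K := Subfield.closure (((Rsub p r).map ι : Subring L) : Set L) with hK
  have hin : ∀ x ∈ Rsub p r, ι x ∈ K := fun x hx => Subfield.subset_closure ⟨x, hx, rfl⟩
  have hg : ι (gp p r) ∈ K := by
    refine AS_lemma p K _ ?_ (fun i => ι (α i)) (fun i => hin _ (hα i)) ?_ ?_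
    · rw [← map_pow, ← map_sub]
      exact hin _ ⟨p ^ (r + 1), by simpa using cp_mem r⟩
    · obtain ⟨i, hi⟩ := hne
      exact ⟨i, fun h' => hi (inj (by rw [h', map_zero]))⟩
    · have := congrArg ι h
      simpa [map_sum] using this
  rw [hK, Subfield.mem_closure_iff, Subring.closure_eq] at hg
  obtain ⟨_, ⟨a0, ⟨w0, h0⟩, rfl⟩, _, ⟨a1, ⟨w1, h1⟩, rfl⟩, e⟩ := hg
  by_cases ha : a1 = 0
  · rw [ha, map_zero, div_zero] at e
    have hg0 : gp p r = 0 := inj (by rw [← e, map_zero])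
    exact lin_ne_zero hp100 hI 0 (a0 := 0) (a1 := 1) (InF.zero _) (InF.one (by simp)) one_ne_zero
      (by simp [hg0])
  · have ha' : ι a1 ≠ 0 := fun h' => ha (inj (by rw [h', map_zero]))
    rw [div_eq_iff ha', ← map_mul] at e
    have e' := inj e
    refine lin_ne_zero hp100 hI (w0 + w1) (a0 := -a0) (a1 := a1) (h0.neg.mono (by simp))
      (h1.mono (by simp)) ha ?_
    rw [e']; ring

theorem indep_all (hp100 : 100 ≤ p) : ∀ r, Indep p r
  | 0 => by
    intro A h n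
    have e : ∑ n, (A n : (ZMod p)⟦X⟧) * bas p (gp p) 0 n = ∑ n : Unit, (A n : (ZMod p)⟦X⟧) * 1 := rfl
    rw [e] at h
    have h' : A () = 0 := by simpa using h
    exact h'
  | r + 1 => by
    have hI := indep_all hp100 r
    intro A h n
    have e : ∑ n, (A n : (ZMod p)⟦X⟧) * bas p (gp p) (r + 1) n = ∑ n : I p r × Fin p,
      (A n : (ZMod p)⟦X⟧) * (bas p (gp p) r n.1 * gp p r ^ (n.2 : ℕ)) := rfl
    rw [e, Fintype.sum_prod_type_right] at h
    have h2 := indep_step hp100 hI (fun i => ∑ m, (A (m, i) : (ZMod p)⟦X⟧) * bas p (gp p) r m)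
      (fun i => ⟨_, exists_FW_sum (fun m => A (m, i)) (ν := univ.sup fun m => (A (m, i)).natDegree)
        fun m => Finset.le_sup (f := fun m => (A (m, i)).natDegree) (mem_univ m)⟩)
      (by rw [← h]; refine Finset.sum_congr rfl fun i _ => ?_
          rw [Finset.sum_mul]; exact Finset.sum_congr rfl fun m _ => by ring)
    exact hI _ (h2 n.2) n.1

theorem claim1 (hp100 : 100 ≤ p) {r : ℕ} (hr : r ≠ 0) {H s : ℕ} {a0 a1 : (ZMod p)⟦X⟧}
    (h0 : FW p r H a0) (h1 : FW p r H a1) (ha : a1 ≠ 0) (hs : X ^ s ∣ a0 + a1 * gp p r) :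
    p * (s + 1) ≤ 45 * p ^ r * (H + p ^ r) := by
  have hI := indep_all hp100 r
  have hq : 0 < p ^ r := pow_pos hp.out.pos r
  have hpq : p ≤ p ^ r := Nat.le_self_pow hr p
  refine rec_bound (a := 3) (b := 5) hp100 hq (fun H s => ∃ a0 a1 : (ZMod p)⟦X⟧,
    FW p r H a0 ∧ FW p r H a1 ∧ a1 ≠ 0 ∧ X ^ s ∣ a0 + a1 * gp p r) ?_ H s ⟨a0, a1, h0, h1, ha, hs⟩
  rintro H s ⟨a0, a1, h0, h1, ha, hs⟩
  set y := a1 * th (ZMod p) (a0 + a1 * gp p r) - th (ZMod p) a1 * (a0 + a1 * gp p r) with hy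
  by_cases h2 : a1 * th (ZMod p) y - 2 * th (ZMod p) a1 * y = 0
  · right
    have hy0 := L_theta (by omega) ha hy h2
    refine ⟨lin_degenerate hI h0 h1 ha (hy ▸ hy0), ?_⟩
    obtain ⟨b0, b1, b2, k0, k1, -, -, k3, k4⟩ := cart_step h0 h1 (InF.zero _) (Or.inr ha)
    obtain ⟨rfl, hb1⟩ := k3 rfl
    exact ⟨b0, b1, k0, k1, hb1, by simpa using k4 s (by simpa using hs)⟩
  · left
    have hm := y2_mem hr h0 h1 hy
    have hdy : X ^ s ∣ y := ((th_dvd hs).mul_left _).sub (hs.mul_left _)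
    have := norm_bound hI (w := 3 * H + 3 * p ^ r) (by simpa using hm) h2
      (((th_dvd hdy).mul_left _).sub (hdy.mul_left _))
    nlinarith

theorem two_ne (hp100 : 100 ≤ p) : (2 : (ZMod p)⟦X⟧) ≠ 0 := by
  intro h
  have := (CharP.cast_eq_zero_iff (ZMod p)⟦X⟧ p 2).mp (by exact_mod_cast h)
  have := Nat.le_of_dvd (by norm_num) this
  omega

theorem claim2 (hp100 : 100 ≤ p) {r : ℕ} (hr : r ≠ 0) {H s : ℕ} {a0 a1 a2 : (ZMod p)⟦X⟧}
    (h0 : FW p r H a0) (h1 : FW p r H a1) (h2 : FW p r H a2) (ha : a2 ≠ 0)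
    (hs : X ^ s ∣ a0 + a1 * gp p r + a2 * gp p r ^ 2) :
    p * (s + 1) ≤ 3240 * p ^ r * (H + p ^ r) := by
  have hI := indep_all hp100 r
  have hq : 0 < p ^ r := pow_pos hp.out.pos r
  have hqz : (0 : ℤ) < (p : ℤ) ^ r := by have := hp.out.pos; positivity
  refine rec_bound (a := 270) (b := 180) hp100 hq (fun H s => ∃ a0 a1 a2 : (ZMod p)⟦X⟧,
    FW p r H a0 ∧ FW p r H a1 ∧ FW p r H a2 ∧ a2 ≠ 0 ∧
      X ^ s ∣ a0 + a1 * gp p r + a2 * gp p r ^ 2) ?_ H s ⟨a0, a1, a2, h0, h1, h2, ha, hs⟩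
  rintro H s ⟨a0, a1, a2, h0, h1, h2, ha, hs⟩
  set a := ((2 : ℕ) : (ZMod p)⟦X⟧) * a2 with had
  have haF : FW p r H a := h2.natMul 2
  have ha0 : a ≠ 0 := mul_ne_zero (by simpa using two_ne hp100) ha
  set t := a1 + a * gp p r with ht
  set y1 := a * th (ZMod p) t - th (ZMod p) a * t with hy1
  set y2 := a * th (ZMod p) y1 - 2 * th (ZMod p) a * y1 with hy2
  set Δ := a1 * a1 - ((4 : ℕ) : (ZMod p)⟦X⟧) * (a0 * a2) with hΔ
  have hE0 : X ^ s ∣ t * t - Δ := by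
    have : t * t - Δ = 4 * a2 * (a0 + a1 * gp p r + a2 * gp p r ^ 2) := by
      rw [ht, hΔ, had]; push_cast; ring
    rw [this]; exact hs.mul_left _
  by_cases c1 : y2 = 0
  · right
    have hy0 := L_theta (by omega) ha0 hy1 (hy2 ▸ c1)
    refine ⟨lin_degenerate hI h1 haF ha0 (by rw [← ht, ← hy1]; exact hy0), ?_⟩
    obtain ⟨b0, b1, b2, k0, k1, k2, k3, -, k4⟩ := cart_step h0 h1 h2 (Or.inl ha)
    exact ⟨b0, b1, b2, k0, k1, k2, k3 ha, k4 s hs⟩
  left
  by_cases c2 : Δ = 0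
  · rw [c2, sub_zero] at hE0
    have hd : X ^ ((s + 1) / 2) ∣ t := by
      by_cases ht0 : t = 0
      · rw [ht0]; exact dvd_zero _
      have h3 := (X_pow_dvd_iff.mp hE0)
      have h4 : (s : ℕ∞) ≤ (t * t).order := le_order _ _ fun i hi => h3 i (by exact_mod_cast hi)
      rw [order_mul, ← coe_toNat_order ht0] at h4
      have h5 : s ≤ t.order.toNat + t.order.toNat := by exact_mod_cast h4
      exact (pow_dvd_pow _ (by omega)).trans (X_pow_order_dvd (φ := t))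
    have := claim1 hp100 hr h1 haF ha0 hd
    have h6 : p * (s + 1) ≤ p * (2 * ((s + 1) / 2 + 1)) := Nat.mul_le_mul_left _ (by omega)
    nlinarith
  · set D1 := a * th (ZMod p) Δ - 2 * th (ZMod p) a * Δ with hD1
    set D2 := a * th (ZMod p) D1 - 3 * th (ZMod p) a * D1 with hD2
    set E0 := t * t - Δ with hE0d
    set E1 := a * th (ZMod p) E0 - 2 * th (ZMod p) a * E0 with hE1d
    set E2 := a * th (ZMod p) E1 - 3 * th (ZMod p) a * E1 with hE2d
    have hE1 : X ^ s ∣ E1 := ((th_dvd hE0).mul_left _).sub (hE0.mul_left _)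
    have hE2 : X ^ s ∣ E2 := ((th_dvd hE1).mul_left _).sub (hE1.mul_left _)
    have e1 : E1 = (t * y1 + t * y1) - D1 := by
      rw [hE1d, hE0d, map_sub, th_mul, hD1, hy1]; ring
    have e2 : E2 = 2 * y1 ^ 2 + 2 * t * y2 - D2 := by
      rw [hE2d, e1, map_sub, map_add, th_mul, hD2, hy2]
      linear_combination (-2 * y1) * hy1
    have e3 : (D1 * D1 + ((4 : ℕ) : (ZMod p)⟦X⟧) * (Δ * y2 * a1) - ((2 : ℕ) : (ZMod p)⟦X⟧) * (Δ * D2))
        + (((4 : ℕ) : (ZMod p)⟦X⟧) * (Δ * y2 * a)) * gp p r =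
        2 * t * t * E2 - (E1 + 2 * D1) * E1 - (4 * t * y2 - 2 * D2) * E0 := by
      have e4 : a * gp p r = t - a1 := by rw [ht]; ring
      rw [e2, e1, hE0d]; push_cast
      linear_combination (4 * Δ * y2) * e4
    have hΔF : FW p r (2 * H) Δ :=
      InF.sub (InF.mul' h1 h1 (by linarith)) (InF.natMul 4 (InF.mul' h0 h2 (by linarith)))
    have hD1F : FW p r (3 * H + (p : ℤ) ^ r) D1 := by
      have := InF.sub (InF.mul' haF (th_mem hΔF) (w'' := 3 * H + (p : ℤ) ^ r) (by linarith))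
        (InF.natMul 2 (InF.mul' (th_mem haF) hΔF (by linarith)))
      rw [hD1]; convert this using 2; push_cast; ring
    have hD2F : FW p r (4 * H + 2 * (p : ℤ) ^ r) D2 := by
      have := InF.sub (InF.mul' haF (th_mem hD1F) (w'' := 4 * H + 2 * (p : ℤ) ^ r) (by linarith))
        (InF.natMul 3 (InF.mul' (th_mem haF) hD1F (by linarith)))
      rw [hD2]; convert this using 2; push_cast; ring
    have hy2F : FW p r (3 * H + 3 * (p : ℤ) ^ r) y2 := y2_mem hr h1 haF hy1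
    have k0 : FW p r (6 * H + 3 * p ^ r : ℕ) (D1 * D1 + ((4 : ℕ) : (ZMod p)⟦X⟧) * (Δ * y2 * a1) -
        ((2 : ℕ) : (ZMod p)⟦X⟧) * (Δ * D2)) := by
      refine InF.sub (InF.add (InF.mul' hD1F hD1F ?_)
        (InF.natMul 4 (InF.mul' (InF.mul hΔF hy2F) h1 ?_))) (InF.natMul 2 (InF.mul' hΔF hD2F ?_))
      all_goals push_cast; linarith
    have k1 : FW p r (6 * H + 3 * p ^ r : ℕ) (((4 : ℕ) : (ZMod p)⟦X⟧) * (Δ * y2 * a)) :=
      InF.natMul 4 (InF.mul' (InF.mul hΔF hy2F) haF (by push_cast; linarith))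
    have h4 : ((4 : ℕ) : (ZMod p)⟦X⟧) ≠ 0 := by
      have := mul_ne_zero (two_ne hp100) (two_ne hp100)
      push_cast; convert this using 1; norm_num
    have := claim1 hp100 hr k0 k1 (mul_ne_zero h4 (mul_ne_zero (mul_ne_zero c2 c1) ha0)) (s := s)
      (by rw [e3]; exact ((hE2.mul_left _).sub (hE1.mul_left _)).sub (hE0.mul_left _))
    nlinarith

theorem claim_quad (hp100 : 100 ≤ p) {r : ℕ} (hr : r ≠ 0) {H s : ℕ} {a0 a1 a2 : (ZMod p)⟦X⟧}
    (h0 : FW p r H a0) (h1 : FW p r H a1) (h2 : FW p r H a2) (ha : a0 ≠ 0 ∨ a1 ≠ 0 ∨ a2 ≠ 0)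
    (hs : X ^ s ∣ a0 + a1 * gp p r + a2 * gp p r ^ 2) :
    p * s ≤ 3240 * p ^ r * (H + p ^ r) := by
  by_cases c2 : a2 = 0
  · subst c2
    by_cases c1 : a1 = 0
    · subst c1
      have := norm_bound (indep_all hp100 r) h0 (by simpa using ha) (by simpa using hs)
      nlinarith
    · have := claim1 hp100 hr h0 h1 c1 (by simpa using hs)
      nlinarith
  · have := claim2 hp100 hr h0 h1 h2 c2 hs
    nlinarith

end Pool.Agent.MP_6428c8_nt.H77
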