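import Mathlib

set_option autoImplicit false

namespace Pool.Agent.MP_6428c8_nt.H77

open Finset Polynomial

theorem coeff_prod_top {R ι : Type*} [CommRing R] (s : Finset ι) (f : ι → R[X]) (L : ι → ℕ)
    (h : ∀ i ∈ s, (f i).natDegree ≤ L i) :
    (∏ i ∈ s, f i).natDegree ≤ ∑ i ∈ s, L i ∧
      (∏ i ∈ s, f i).coeff (∑ i ∈ s, L i) = ∏ i ∈ s, (f i).coeff (L i) := by
  classical
  induction s using Finset.induction_on with
  | empty => simp
  | insert a s ha ih =>
    obtain ⟨h1, h2⟩ := ih fun i hi => h i (mem_insert_of_mem hi)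
    have h3 := h a (mem_insert_self _ _)
    rw [Finset.prod_insert ha, Finset.sum_insert ha, Finset.prod_insert ha]
    exact ⟨natDegree_mul_le.trans (add_le_add h3 h1),
      by rw [coeff_mul_add_eq_of_natDegree_le h3 h1, h2]⟩

theorem natDegree_det_le_sum {R n : Type*} [CommRing R] [Fintype n] [DecidableEq n]
    (M : Matrix n n R[X]) (L : n → ℕ) (h : ∀ i j, (M i j).natDegree ≤ L i) :
    M.det.natDegree ≤ ∑ i, L i := by
  rw [Matrix.det_apply']
  refine natDegree_sum_le_of_forall_le _ _ fun σ _ => natDegree_mul_le.trans ?_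
  rw [natDegree_intCast, zero_add, ← Equiv.sum_comp σ L]
  exact (coeff_prod_top _ _ (fun i => L (σ i)) fun i _ => h _ _).1

theorem coeff_det_top {R n : Type*} [CommRing R] [Fintype n] [DecidableEq n]
    (M : Matrix n n R[X]) (L : n → ℕ) (h : ∀ i j, (M i j).natDegree ≤ L i) :
    M.det.coeff (∑ i, L i) = (Matrix.of fun i j => (M i j).coeff (L i)).det := by
  rw [Matrix.det_apply', Matrix.det_apply', finsetSum_coeff]
  refine Finset.sum_congr rfl fun σ _ => ?_
  rw [← Equiv.sum_comp σ L, ← C_eq_intCast, coeff_C_mul,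
    (coeff_prod_top _ _ (fun i => L (σ i)) fun i _ => h _ _).2]
  simp

theorem abs_det_le {n : Type*} [Fintype n] [DecidableEq n] (M : Matrix n n ℝ) (ρ γ : n → ℝ)
    (h : ∀ i j, |M i j| ≤ ρ i * γ j) :
    |M.det| ≤ (Fintype.card n).factorial * ((∏ i, ρ i) * ∏ j, γ j) := by
  rw [Matrix.det_apply']
  refine (Finset.abs_sum_le_sum_abs _ _).trans ?_
  have : ∀ σ : Equiv.Perm n, |((Equiv.Perm.sign σ : ℤ) : ℝ) * ∏ i, M (σ i) i| ≤
      (∏ i, ρ i) * ∏ j, γ j := by
    intro σ
    have h1 : |((Equiv.Perm.sign σ : ℤ) : ℝ)| = 1 := by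
      rw [← Int.cast_abs, Int.abs_eq_natAbs, Int.units_natAbs]; simp
    rw [abs_mul, h1, one_mul, Finset.abs_prod, ← Equiv.prod_comp σ ρ, ← Finset.prod_mul_distrib]
    exact Finset.prod_le_prod (fun i _ => abs_nonneg _) fun i _ => h _ _
  refine (Finset.sum_le_sum fun σ _ => this σ).trans ?_
  rw [Finset.sum_const, Finset.card_univ, Fintype.card_perm, nsmul_eq_mul]

end Pool.Agent.MP_6428c8_nt.H77
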