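import Pool.Agent.MP_6428c8_nt.H77.TowerP
import Pool.Agent.MP_6428c8_nt.H77.DetLem
import Pool.Agent.MP_6428c8_nt.H77.ASLem

set_option autoImplicit false

namespace Pool.Agent.MP_6428c8_nt.H77

open Finset PowerSeries

variable (p : ℕ) [hp : Fact p.Prime]

def Indep (k : ℕ) : Prop :=
  ∀ A : I p k → Polynomial (ZMod p),
    ∑ n, (A n : (ZMod p)⟦X⟧) * bas p (gp p) k n = 0 → ∀ n, A n = 0

variable {p}

theorem le_natDegree_of_dvd {R : Type*} [CommRing R] {A : Polynomial R} (hA : A ≠ 0) {s : ℕ}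
    (h : (X : R⟦X⟧) ^ s ∣ (A : R⟦X⟧)) : s ≤ A.natDegree := by
  by_contra hs
  rw [X_pow_dvd_iff] at h
  have := h A.natDegree (not_le.mp hs)
  rw [Polynomial.coeff_coe] at this
  exact Polynomial.leadingCoeff_ne_zero.mpr hA this

theorem norm_bound {r : ℕ} (hI : Indep p r) {w : ℕ} {α : (ZMod p)⟦X⟧} (hα : FW p r w α)
    (h0 : α ≠ 0) {s : ℕ} (hs : X ^ s ∣ α) : p * s ≤ p ^ r * (w + p ^ r) := by
  have hT : ∀ n : I p r, ∃ A : I p r → Polynomial (ZMod p),
      (∀ m, ((A m).natDegree : ℤ) * p ≤ w + (p : ℤ) ^ r) ∧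
      α * bas p (gp p) r n = ∑ m, (A m : (ZMod p)⟦X⟧) * bas p (gp p) r m := fun n =>
    span_repr r (by positivity) (InF.mul hα (bas_mem_FW n))
  choose T hT eT using hT
  set M : Matrix (I p r) (I p r) (Polynomial (ZMod p)) := Matrix.of T with hM
  set ι : Polynomial (ZMod p) →+* (ZMod p)⟦X⟧ := Polynomial.coeToPowerSeries.ringHom with hι
  have hdet : M.det ≠ 0 := by
    intro h
    obtain ⟨v, hv0, hv⟩ := Matrix.exists_vecMul_eq_zero_iff.mpr h
    apply hv0
    ext1 n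
    refine hI v ?_ n
    have h1 : α * ∑ n, (v n : (ZMod p)⟦X⟧) * bas p (gp p) r n = 0 := by
      rw [Finset.mul_sum]
      have : ∀ n, α * ((v n : (ZMod p)⟦X⟧) * bas p (gp p) r n) =
          ∑ m, ((v n * T n m : Polynomial (ZMod p)) : (ZMod p)⟦X⟧) * bas p (gp p) r m := by
        intro n
        rw [mul_left_comm, eT, Finset.mul_sum]
        exact Finset.sum_congr rfl fun m _ => by rw [Polynomial.coe_mul, mul_assoc]
      simp only [this]
      rw [Finset.sum_comm]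
      refine Finset.sum_eq_zero fun m _ => ?_
      rw [← Finset.sum_mul]
      have h2 : ∑ n, v n * T n m = 0 := congrFun hv m
      have h3 := congrArg ι h2
      rw [map_sum, map_zero] at h3
      simp only [hι, Polynomial.coeToPowerSeries.ringHom_apply] at h3
      rw [h3, zero_mul]
    exact (mul_eq_zero.mp h1).resolve_left h0
  have hmv : (M.map ι).mulVec (bas p (gp p) r) = α • bas p (gp p) r := by
    ext1 n
    rw [Pi.smul_apply, smul_eq_mul, eT]
    rfl
  have h2 : (M.map ι).adjugate.mulVec ((M.map ι).mulVec (bas p (gp p) r)) =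
      (M.map ι).det • bas p (gp p) r := by
    rw [Matrix.mulVec_mulVec, Matrix.adjugate_mul, Matrix.smul_mulVec, Matrix.one_mulVec]
  rw [hmv, Matrix.mulVec_smul] at h2
  have h3 := congrFun h2 (zeroI p hp.out.pos r)
  rw [Pi.smul_apply, Pi.smul_apply, bas_zeroI, smul_eq_mul, smul_eq_mul, mul_one,
    ← RingHom.mapMatrix_apply, ← RingHom.map_det] at h3
  have h4 : (X : (ZMod p)⟦X⟧) ^ s ∣ (M.det : (ZMod p)⟦X⟧) := by
    have : (M.det : (ZMod p)⟦X⟧) = ι M.det := rfl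
    rw [this, ← h3]; exact hs.mul_right _
  have h5 := le_natDegree_of_dvd hdet h4
  have h6 := natDegree_det_le_sum M (fun _ => (w + p ^ r) / p) fun i j => by
    rw [Nat.le_div_iff_mul_le hp.out.pos]; exact_mod_cast hT i j
  rw [Finset.sum_const, Finset.card_univ, card_I, smul_eq_mul] at h6
  have h7 : p * ((w + p ^ r) / p) ≤ w + p ^ r := Nat.mul_div_le _ _
  calc p * s ≤ p * (p ^ r * ((w + p ^ r) / p)) := Nat.mul_le_mul_left _ (h5.trans h6)
    _ = p ^ r * (p * ((w + p ^ r) / p)) := by ring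
    _ ≤ _ := Nat.mul_le_mul_left _ h7

theorem shift_bound {r : ℕ} (hI : Indep p r) {w w' : ℤ} {β : (ZMod p)⟦X⟧} (hβ : FW p r w' β)
    (h0 : β ≠ 0) {q : ℕ} (h : FW p r w (X ^ q * β)) : (q : ℤ) * p ≤ w := by
  have hw' : 0 ≤ w' := by
    by_contra hh; exact h0 (hβ.eq_zero_of_neg (by positivity) (not_le.mp hh))
  have hw : 0 ≤ w := by
    by_contra hh
    exact mul_ne_zero (pow_ne_zero _ X_ne_zero) h0 (h.eq_zero_of_neg (by positivity) (not_le.mp hh))
  obtain ⟨B, -, eB⟩ := span_repr r hw' hβ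
  obtain ⟨A, hA, eA⟩ := span_repr r hw h
  have h1 := hI (fun n => A n - Polynomial.X ^ q * B n) (by
    simp only [Polynomial.coe_sub, Polynomial.coe_mul, Polynomial.coe_pow, Polynomial.coe_X,
      sub_mul, Finset.sum_sub_distrib, mul_assoc]
    rw [← eA, ← Finset.mul_sum, ← eB, sub_self])
  have : ∃ n, B n ≠ 0 := by
    by_contra hh
    push Not at hh
    apply h0; rw [eB]; simp [hh]
  obtain ⟨n, hn⟩ := this
  have h2 : A n = Polynomial.X ^ q * B n := sub_eq_zero.mp (h1 n)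
  have h3 := hA n
  rw [h2, Polynomial.natDegree_mul (pow_ne_zero _ Polynomial.X_ne_zero) hn,
    Polynomial.natDegree_X_pow] at h3
  push_cast at h3
  have : (0 : ℤ) ≤ (B n).natDegree * p := by positivity
  linarith

theorem th_th_zero {x : (ZMod p)⟦X⟧} (h : th (ZMod p) (th (ZMod p) x) = 0) : th (ZMod p) x = 0 := by
  ext n
  have := congrArg (coeff n) h
  rw [coeff_th, coeff_th, map_zero] at this
  rw [coeff_th, map_zero]
  rcases mul_eq_zero.mp this with h | h
  · rw [h, zero_mul]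
  · exact h

theorem L_theta (hp3 : 3 ≤ p) {a x y : (ZMod p)⟦X⟧} (ha : a ≠ 0)
    (hy : y = a * th (ZMod p) x - th (ZMod p) a * x)
    (h : a * th (ZMod p) y - 2 * th (ZMod p) a * y = 0) : y = 0 := by
  obtain ⟨m, hm⟩ : ∃ m, p = m + 3 := ⟨p - 3, by omega⟩
  have hm0 : (m : (ZMod p)⟦X⟧) = -3 := by
    have h1 : ((m + 3 : ℕ) : (ZMod p)⟦X⟧) = 0 := by rw [← hm]; exact p_eq_zero
    push_cast at h1; linear_combination h1
  have e1 : th (ZMod p) (x * a ^ (m + 1 + 1)) = a ^ (m + 1) * y := by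
    rw [th_mul, th_pow_succ, hy]; push_cast; rw [hm0]; ring
  have e2 : th (ZMod p) (a ^ (m + 1) * y) = 0 := by
    rw [th_mul, th_pow_succ, hm0]; linear_combination a ^ m * h
  have e3 := th_th_zero (x := x * a ^ (m + 1 + 1)) (by rw [e1, e2])
  rw [e1] at e3
  exact (mul_eq_zero.mp e3).resolve_left (pow_ne_zero _ ha)

theorem lin_degenerate {r H : ℕ} (hI : Indep p r) {a0 a1 : (ZMod p)⟦X⟧} (h0 : FW p r H a0)
    (h1 : FW p r H a1) (ha : a1 ≠ 0)
    (hy : a1 * th (ZMod p) (a0 + a1 * gp p r) - th (ZMod p) a1 * (a0 + a1 * gp p r) = 0) :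
    p * p ^ r ≤ 2 * H + 2 * p ^ r := by
  have hμ := mu_mem (p := p) r
  have hq : (0 : ℤ) < (p : ℤ) ^ r := by have := hp.out.pos; positivity
  have e : X ^ (p ^ r) * (a1 * a1) = a0 * th (ZMod p) a1 - a1 * th (ZMod p) a0 -
      a1 * a1 * (th (ZMod p) (gp p r) - X ^ (p ^ r)) := by
    rw [map_add, th_mul] at hy
    linear_combination hy
  have hm : FW p r (2 * H + 2 * (p : ℤ) ^ r) (X ^ (p ^ r) * (a1 * a1)) := by
    rw [e]
    exact InF.sub (InF.sub (InF.mul' h0 (th_mem h1) (by linarith))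
      (InF.mul' h1 (th_mem h0) (by linarith))) (InF.mul' (InF.mul h1 h1) hμ (by linarith))
  have := shift_bound hI (InF.mul h1 h1) (mul_ne_zero ha ha) hm
  push_cast at this
  have h2 : (p : ℤ) * p ^ r ≤ 2 * H + 2 * p ^ r := by linarith
  exact_mod_cast h2

theorem y2_mem {r H : ℕ} (hr : r ≠ 0) {a0 a1 y : (ZMod p)⟦X⟧} (h0 : FW p r H a0)
    (h1 : FW p r H a1)
    (hy : y = a1 * th (ZMod p) (a0 + a1 * gp p r) - th (ZMod p) a1 * (a0 + a1 * gp p r)) :
    FW p r (3 * H + 3 * (p : ℤ) ^ r) (a1 * th (ZMod p) y - 2 * th (ZMod p) a1 * y) := by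
  have hμ := mu_mem (p := p) r
  have hq : (0 : ℤ) < (p : ℤ) ^ r := by have := hp.out.pos; positivity
  set μ := th (ZMod p) (gp p r) - X ^ (p ^ r) with hμd
  set u := a1 * th (ZMod p) a0 - a0 * th (ZMod p) a1 with hu
  have hX : th (ZMod p) (X ^ (p ^ r) : (ZMod p)⟦X⟧) = 0 := by
    rw [th_pow, Nat.cast_pow, p_eq_zero, zero_pow hr, zero_mul]
  have e1 : y = u + a1 * a1 * (X ^ (p ^ r) + μ) := by
    rw [hy, map_add, th_mul, hu, hμd]; ring
  have e2 : a1 * th (ZMod p) y - 2 * th (ZMod p) a1 * y =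
      a1 * th (ZMod p) u - (2 : ℕ) * (th (ZMod p) a1 * u) + a1 * a1 * a1 * th (ZMod p) μ := by
    rw [e1, map_add, th_mul, th_mul, map_add, hX]; push_cast; ring
  have hu' : FW p r (2 * H + (p : ℤ) ^ r) u :=
    InF.sub (InF.mul' h1 (th_mem h0) (by linarith)) (InF.mul' h0 (th_mem h1) (by linarith))
  rw [e2]
  exact InF.add (InF.sub (InF.mul' h1 (th_mem hu') (by linarith))
    (InF.natMul 2 (InF.mul' (th_mem h1) hu' (by linarith))))
    (InF.mul' (InF.mul (InF.mul h1 h1) h1) (th_mem hμ) (by linarith))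

theorem cartier' {r : ℕ} {w : ℤ} {x : (ZMod p)⟦X⟧} (hx : FC p r w x) :
    ∃ y : ℕ → (ZMod p)⟦X⟧, (∀ t : ℕ, FW p r w (y t)) ∧
      x = ∑ t ∈ range p, X ^ t * y t ^ p ∧ (x = 0 → ∀ t, y t = 0) ∧
      (x ≠ 0 → ∃ t < p, y t ≠ 0) := by
  by_cases h : x = 0
  · exact ⟨0, fun t => InF.zero _, by simp [h, hp.out.ne_zero], fun _ _ => rfl, fun h' => absurd h h'⟩
  obtain ⟨y, hy, e⟩ := cartier hx
  refine ⟨y, fun t => (hy t).mono (by simp), e, fun h' => absurd h' h, fun _ => ?_⟩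
  by_contra hh
  push Not at hh
  apply h
  rw [e]
  exact Finset.sum_eq_zero fun t ht => by simp [hh t (mem_range.mp ht), hp.out.ne_zero]

theorem cart_step {r H : ℕ} {a0 a1 a2 : (ZMod p)⟦X⟧} (h0 : FW p r H a0) (h1 : FW p r H a1)
    (h2 : FW p r H a2) (hne : a2 ≠ 0 ∨ a1 ≠ 0) :
    ∃ b0 b1 b2 : (ZMod p)⟦X⟧, FW p r (H / p + 3 * p ^ r : ℕ) b0 ∧
      FW p r (H / p + 3 * p ^ r : ℕ) b1 ∧ FW p r (H / p + 3 * p ^ r : ℕ) b2 ∧
      (a2 ≠ 0 → b2 ≠ 0) ∧ (a2 = 0 → b2 = 0 ∧ b1 ≠ 0) ∧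
      ∀ s, X ^ s ∣ a0 + a1 * gp p r + a2 * gp p r ^ 2 →
        X ^ (s / p) ∣ b0 + b1 * gp p r + b2 * gp p r ^ 2 := by
  have hq : (0 : ℤ) < (p : ℤ) ^ r := by have := hp.out.pos; positivity
  have c0 := FC_of_FW h0
  have c1 := FC_of_FW h1
  have c2 := FC_of_FW h2
  have hc := cc_mem (p := p) r
  set c := gp p r - gp p r ^ p with hcd
  have d0 : FC p r (H / p + 3 * p ^ r : ℕ) (a0 + a1 * c + a2 * (c * c)) := by
    push_cast at c0 c1 c2 ⊢
    exact InF.add (InF.add (c0.mono (by linarith)) (InF.mul' c1 hc (by linarith)))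
      (InF.mul' c2 (InF.mul hc hc) (by linarith))
  have d1 : FC p r (H / p + 3 * p ^ r : ℕ) (a1 + (2 : ℕ) * (a2 * c)) := by
    push_cast at c0 c1 c2 ⊢
    exact InF.add (c1.mono (by linarith)) (InF.natMul 2 (InF.mul' c2 hc (by linarith)))
  have d2 : FC p r (H / p + 3 * p ^ r : ℕ) a2 := by
    push_cast at c0 c1 c2 ⊢
    exact c2.mono (by linarith)
  obtain ⟨y0, hy0, e0, -, -⟩ := cartier' d0
  obtain ⟨y1, hy1, e1, -, n1⟩ := cartier' d1
  obtain ⟨y2, hy2, e2, z2, n2⟩ := cartier' d2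
  have key : a0 + a1 * gp p r + a2 * gp p r ^ 2 =
      ∑ t ∈ range p, X ^ t * (y0 t + y1 t * gp p r + y2 t * gp p r ^ 2) ^ p := by
    have : a0 + a1 * gp p r + a2 * gp p r ^ 2 = (a0 + a1 * c + a2 * (c * c)) +
        (a1 + (2 : ℕ) * (a2 * c)) * gp p r ^ p + a2 * (gp p r ^ p) ^ 2 := by
      rw [hcd]; push_cast; ring
    rw [this, e0, e1]
    nth_rewrite 1 [e2]
    rw [Finset.sum_mul, Finset.sum_mul, ← Finset.sum_add_distrib, ← Finset.sum_add_distrib]
    refine Finset.sum_congr rfl fun t _ => ?_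
    rw [add_pow_char, add_pow_char, mul_pow, mul_pow, ← pow_mul, ← pow_mul, mul_comm p 2]; ring
  have : ∃ t < p, (a2 ≠ 0 → y2 t ≠ 0) ∧ (a2 = 0 → y2 t = 0 ∧ y1 t ≠ 0) := by
    by_cases ha2 : a2 = 0
    · obtain ⟨t, ht, h⟩ := n1 (by simpa [ha2] using hne)
      exact ⟨t, ht, fun h' => absurd ha2 h', fun _ => ⟨z2 ha2 t, h⟩⟩
    · obtain ⟨t, ht, h⟩ := n2 ha2
      exact ⟨t, ht, fun _ => h, fun h' => absurd h' ha2⟩
  obtain ⟨t, ht, k1, k2⟩ := this
  refine ⟨y0 t, y1 t, y2 t, hy0 t, hy1 t, hy2 t, k1, k2, fun s hs => ?_⟩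
  rw [key] at hs
  exact cartier_dvd (y := fun t => y0 t + y1 t * gp p r + y2 t * gp p r ^ 2) hs ht

theorem desc_lt {p q H : ℕ} (hp : 100 ≤ p) (hq : 0 < q) (h : p * q ≤ 2 * H + 2 * q) :
    H / p + 3 * q < H := by
  have h1 : p * (H / p) ≤ H := Nat.mul_div_le _ _
  have h2 : 100 * (H / p) ≤ p * (H / p) := Nat.mul_le_mul_right _ hp
  have h3 : 100 * q ≤ p * q := Nat.mul_le_mul_right _ hp
  omega

theorem rec_bound {p q a b : ℕ} (hp : 100 ≤ p) (hq : 0 < q) (Good : ℕ → ℕ → Prop)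
    (hstep : ∀ H s, Good H s → p * (s + 1) ≤ q * (a * H + b * q) ∨
      (p * q ≤ 2 * H + 2 * q ∧ Good (H / p + 3 * q) (s / p))) (H s : ℕ) (h : Good H s) :
    p * (s + 1) ≤ (10 * a + 3 * b) * q * (H + q) := by
  have key : ∀ H s, Good H s → p * (s + 1) ≤ q * (a * H + b * q) ∨
      p * (s + 1) + 4 * (10 * a + 3 * b) * q * q ≤ (10 * a + 3 * b) * q * H := by
    intro H
    induction H using Nat.strong_induction_on with
    | _ H ih =>
      intro s hs
      rcases hstep H s hs with h | ⟨h1, h2⟩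
      · exact Or.inl h
      right
      have hs1 : s + 1 ≤ p * (s / p + 1) := by
        have := Nat.lt_mul_div_succ s (show 0 < p by omega)
        omega
      have hs2 : p * (s + 1) ≤ p * (p * (s / p + 1)) := Nat.mul_le_mul_left _ hs1
      have hH : p * (H / p) ≤ H := Nat.mul_div_le _ _
      have h3 : 100 * q ≤ p * q := Nat.mul_le_mul_right _ hp
      have h49 : 49 * q ≤ H := by omega
      set D := H / p with hD
      set S := p * (s / p + 1) with hS
      rcases ih _ (desc_lt hp hq h1) _ h2 with h4 | h4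
      · have h5 : p * S ≤ p * (q * (a * (D + 3 * q) + b * q)) := Nat.mul_le_mul_left _ h4
        have h6 : p * (q * (a * (D + 3 * q) + b * q)) =
            q * a * (p * D) + q * (3 * a + b) * (p * q) := by ring
        have h7 : q * a * (p * D) ≤ q * a * H := Nat.mul_le_mul_left _ hH
        have h8 : q * (3 * a + b) * (p * q) ≤ q * (3 * a + b) * (2 * H + 2 * q) :=
          Nat.mul_le_mul_left _ h1
        have h9 : q * (3 * a + b) * (49 * q) ≤ q * (3 * a + b) * H := Nat.mul_le_mul_left _ h49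
        have h10 : 0 ≤ q * q * a := by positivity
        have h11 : 0 ≤ q * q * b := by positivity
        nlinarith
      · set c := 10 * a + 3 * b with hc
        have h5 : p * (S + 4 * c * q * q) ≤ p * (c * q * (D + 3 * q)) := Nat.mul_le_mul_left _ h4
        have h6 : c * q * (p * D) ≤ c * q * H := Nat.mul_le_mul_left _ hH
        have h7 : c * q * q * 100 ≤ c * q * q * p := Nat.mul_le_mul_left _ hp
        have h8 : 0 ≤ c * q * q := by positivity
        have e1 : p * (S + 4 * c * q * q) = p * S + 4 * (c * q * q * p) := by ring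
        have e2 : p * (c * q * (D + 3 * q)) = c * q * (p * D) + 3 * (c * q * q * p) := by ring
        have e3 : 4 * c * q * q = 4 * (c * q * q) := by ring
        rw [e1, e2] at h5
        rw [e3]
        omega
  rcases key H s h with h | h
  · have h10 : 0 ≤ q * q * a := by positivity
    have h11 : 0 ≤ q * q * b := by positivity
    have h12 : 0 ≤ q * H * a := by positivity
    have h13 : 0 ≤ q * H * b := by positivity
    nlinarith
  · have h10 : 0 ≤ (10 * a + 3 * b) * q * q := by positivity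
    nlinarith

end Pool.Agent.MP_6428c8_nt.H77
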