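import Mathlib

set_option autoImplicit false

namespace Pool.Agent.MP_6428c8_nt.H77

open Finset

/-- Weighted filtration of the subring generated by `z` (weight `wz`) and the `h j`
(weight `p ^ j`) for `j < k`. -/
inductive InF {A : Type*} [CommRing A] (p : ℕ) (z : A) (wz : ℤ) (h : ℕ → A) (k : ℕ) :
    ℤ → A → Prop
  | zero (w : ℤ) : InF p z wz h k w 0
  | const (c : ℤ) (w : ℤ) (hw : 0 ≤ w) : InF p z wz h k w (c : A)
  | add {w : ℤ} {x y : A} : InF p z wz h k w x → InF p z wz h k w y → InF p z wz h k w (x + y)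
  | mulz {w w' : ℤ} {x : A} : InF p z wz h k w x → w + wz ≤ w' → InF p z wz h k w' (z * x)
  | mulh {w w' : ℤ} {x : A} (j : ℕ) : j < k → InF p z wz h k w x → w + (p : ℤ) ^ j ≤ w' →
      InF p z wz h k w' (h j * x)

namespace InF

variable {A : Type*} [CommRing A] {p : ℕ} {z : A} {wz : ℤ} {h : ℕ → A} {k : ℕ}

theorem mono {w w' : ℤ} {x : A} (hx : InF p z wz h k w x) (hw : w ≤ w') :
    InF p z wz h k w' x := by
  induction hx generalizing w' with
  | zero w => exact zero _
  | const c w hw0 => exact const c _ (hw0.trans hw)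
  | add _ _ ihx ihy => exact add (ihx hw) (ihy hw)
  | mulz hx h1 _ => exact mulz hx (h1.trans hw)
  | mulh j hj hx h1 _ => exact mulh j hj hx (h1.trans hw)

theorem level {k' : ℕ} {w : ℤ} {x : A} (hx : InF p z wz h k w x) (hk : k ≤ k') :
    InF p z wz h k' w x := by
  induction hx with
  | zero w => exact zero _
  | const c w hw0 => exact const c _ hw0
  | add _ _ ihx ihy => exact add ihx ihy
  | mulz _ h1 ih => exact mulz ih h1
  | mulh j hj _ h1 ih => exact mulh j (lt_of_lt_of_le hj hk) ih h1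

theorem intMul (c : ℤ) {w : ℤ} {x : A} (hx : InF p z wz h k w x) :
    InF p z wz h k w ((c : A) * x) := by
  induction hx with
  | zero w => rw [mul_zero]; exact zero _
  | const c' w hw0 => rw [← Int.cast_mul]; exact const (c * c') _ hw0
  | add _ _ ihx ihy => rw [mul_add]; exact add ihx ihy
  | mulz _ h1 ih => rw [mul_left_comm]; exact mulz ih h1
  | mulh j hj _ h1 ih => rw [mul_left_comm]; exact mulh j hj ih h1

theorem natMul (c : ℕ) {w : ℤ} {x : A} (hx : InF p z wz h k w x) :
    InF p z wz h k w ((c : A) * x) := by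
  simpa using intMul (c : ℤ) hx

theorem neg {w : ℤ} {x : A} (hx : InF p z wz h k w x) : InF p z wz h k w (-x) := by
  simpa using intMul (-1) hx

theorem sub {w : ℤ} {x y : A} (hx : InF p z wz h k w x) (hy : InF p z wz h k w y) :
    InF p z wz h k w (x - y) := by
  rw [sub_eq_add_neg]; exact add hx (neg hy)

theorem one {w : ℤ} (hw : 0 ≤ w) : InF p z wz h k w (1 : A) := by
  simpa using const (p := p) (z := z) (wz := wz) (h := h) (k := k) 1 w hw

theorem natConst (c : ℕ) {w : ℤ} (hw : 0 ≤ w) : InF p z wz h k w (c : A) := by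
  simpa using const (p := p) (z := z) (wz := wz) (h := h) (k := k) c w hw

theorem mul {w w' : ℤ} {x y : A} (hx : InF p z wz h k w x) (hy : InF p z wz h k w' y) :
    InF p z wz h k (w + w') (x * y) := by
  induction hx with
  | zero w => rw [zero_mul]; exact zero _
  | const c w hw0 => exact (intMul c hy).mono (by omega)
  | add _ _ ihx ihy => rw [add_mul]; exact add ihx ihy
  | mulz _ h1 ih => rw [mul_assoc]; exact mulz ih (by omega)
  | mulh j hj _ h1 ih => rw [mul_assoc]; exact mulh j hj ih (by omega)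

theorem mul' {w w' w'' : ℤ} {x y : A} (hx : InF p z wz h k w x) (hy : InF p z wz h k w' y)
    (hw : w + w' ≤ w'') : InF p z wz h k w'' (x * y) := (mul hx hy).mono hw

theorem pow {w : ℤ} {x : A} (hx : InF p z wz h k w x) (n : ℕ) :
    InF p z wz h k (n * w) (x ^ n) := by
  induction n with
  | zero => simpa using one le_rfl
  | succ n ih => rw [pow_succ]; exact mul' ih hx (by push_cast; linarith)

theorem gen {j : ℕ} (hj : j < k) : InF p z wz h k ((p : ℤ) ^ j) (h j) := by
  simpa using mulh (w := 0) (w' := (p : ℤ) ^ j) j hj (one (z := z) (wz := wz) le_rfl) (by simp)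

theorem genz : InF p z wz h k wz z := by
  simpa using mulz (w := 0) (w' := wz) (one (p := p) (z := z) (wz := wz) (h := h) (k := k) le_rfl)
    (by simp)

theorem sum {ι : Type*} (s : Finset ι) {w : ℤ} {x : ι → A}
    (hx : ∀ i ∈ s, InF p z wz h k w (x i)) : InF p z wz h k w (∑ i ∈ s, x i) := by
  classical
  induction s using Finset.induction_on with
  | empty => rw [Finset.sum_empty]; exact zero _
  | insert a s ha ih =>
    rw [Finset.sum_insert ha]
    exact add (hx a (mem_insert_self _ _)) (ih fun i hi => hx i (mem_insert_of_mem hi))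

theorem map {B : Type*} [CommRing B] (π : A →+* B) {w : ℤ} {x : A}
    (hx : InF p z wz h k w x) : InF p (π z) wz (fun j => π (h j)) k w (π x) := by
  induction hx with
  | zero w => rw [map_zero]; exact zero _
  | const c w hw0 => rw [map_intCast]; exact const c _ hw0
  | add _ _ ihx ihy => rw [map_add]; exact add ihx ihy
  | mulz _ h1 ih => rw [map_mul]; exact mulz ih h1
  | mulh j hj _ h1 ih => rw [map_mul]; exact mulh (h := fun j => π (h j)) j hj ih h1

theorem eq_zero_of_neg (hwz : 0 ≤ wz) {w : ℤ} {x : A} (hx : InF p z wz h k w x) (hw : w < 0) :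
    x = 0 := by
  induction hx with
  | zero w => rfl
  | const c w hw0 => omega
  | add _ _ ihx ihy => rw [ihx hw, ihy hw, add_zero]
  | mulz _ h1 ih => rw [ih (by omega), mul_zero]
  | mulh j hj _ h1 ih =>
    have : (0 : ℤ) ≤ (p : ℤ) ^ j := by positivity
    rw [ih (by omega), mul_zero]

theorem crossSum {w : ℤ} {wx wy : ℤ} {x y : A} (hx : InF p z wz h k wx x)
    (hy : InF p z wz h k wy y) (h1 : wx ≤ w) (h2 : wy ≤ w) :
    InF p z wz h k (p * w) (∑ i ∈ Ioo 0 p, x ^ i * y ^ (p - i) * ((p.choose i / p : ℕ) : A)) := by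
  refine sum _ fun i hi => ?_
  rw [mul_comm (x ^ i * y ^ (p - i))]
  refine natMul _ ?_
  have hi' : i ≤ p := (mem_Ioo.mp hi).2.le
  refine mul' ((hx.mono h1).pow i) ((hy.mono h2).pow (p - i)) ?_
  rw [Nat.cast_sub hi']; linarith

/-- closure under the operator `δ` with `φ x = x ^ p + p δ x`. -/
theorem delta (hp : p.Prime) (φ : A →+* A) (hz : φ z = z ^ p)
    (hh : ∀ j, φ (h j) = h j ^ p + p * h (j + 1)) {w : ℤ} {x : A} (hx : InF p z wz h k w x) :
    ∃ y, InF p z wz h (k + 1) (p * w) y ∧ φ x = x ^ p + p * y := by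
  have hp0 : (0 : ℤ) ≤ p := Int.natCast_nonneg p
  induction hx with
  | zero w => exact ⟨0, zero _, by simp [hp.ne_zero]⟩
  | const c w hw0 =>
    have := Fact.mk hp
    have : (p : ℤ) ∣ c - c ^ p := by
      rw [← ZMod.intCast_zmod_eq_zero_iff_dvd]
      push_cast
      rw [ZMod.pow_card]; ring
    obtain ⟨y, hy⟩ := this
    refine ⟨(y : A), const y _ (mul_nonneg hp0 hw0), ?_⟩
    have h2 : c = c ^ p + p * y := by linarith
    rw [map_intCast]
    have := congrArg (Int.cast : ℤ → A) h2
    push_cast at this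
    exact this
  | @add w x y hx hy ihx ihy =>
    obtain ⟨a, ha, ea⟩ := ihx
    obtain ⟨b, hb, eb⟩ := ihy
    refine ⟨a + b - ∑ i ∈ Ioo 0 p, x ^ i * y ^ (p - i) * ((p.choose i / p : ℕ) : A),
      sub (add ha hb) ((crossSum hx hy le_rfl le_rfl).level (Nat.le_succ k)), ?_⟩
    rw [map_add, ea, eb, add_pow_prime_eq' hp]; ring
  | @mulz w w' x hx h1 ih =>
    obtain ⟨a, ha, ea⟩ := ih
    refine ⟨z ^ p * a, mul' (genz.pow p) ha (by nlinarith), ?_⟩
    rw [map_mul, hz, ea]; ring
  | @mulh w w' x j hj hx h1 ih =>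
    obtain ⟨a, ha, ea⟩ := ih
    have hle : (p : ℤ) * (p : ℤ) ^ j + p * w ≤ p * w' := by nlinarith
    have g1 : InF p z wz h (k + 1) ((p : ℤ) ^ (j + 1)) (h (j + 1)) := gen (by omega)
    have g0 : InF p z wz h (k + 1) ((p : ℤ) ^ j) (h j) := gen (by omega)
    rw [pow_succ'] at g1
    refine ⟨h j ^ p * a + h (j + 1) * x ^ p + (p : A) * (h (j + 1) * a), ?_, ?_⟩
    · refine add (add (mul' (g0.pow p) ha hle) (mul' g1 ((hx.level (Nat.le_succ k)).pow p) hle))
        (natMul p (mul' g1 ha hle))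
    · rw [map_mul, hh, ea]; ring

/-- comparison of two `δ`-towers. -/
theorem tower_diff (hp : p.Prime) (hreg : ∀ a : A, (p : A) * a = 0 → a = 0)
    (φ : A →+* A) (hz : φ z = z ^ p)
    (hh : ∀ j, φ (h j) = h j ^ p + p * h (j + 1)) (h' : ℕ → A)
    (hh' : ∀ j, φ (h' j) = h' j ^ p + p * h' (j + 1)) {w0 : ℤ} (hw0 : 1 ≤ w0)
    (h0 : InF p z wz h 0 w0 (h' 0 - h 0)) (k : ℕ) :
    InF p z wz h k ((p : ℤ) ^ k * w0) (h' k - h k) := by
  induction k with
  | zero => simpa using h0
  | succ k ih =>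
    obtain ⟨y, hy, ey⟩ := delta hp φ hz hh ih
    set c := h' k - h k with hc
    have e1 : h' k = h k + c := by rw [hc]; ring
    have hpk : (0 : ℤ) ≤ (p : ℤ) ^ k := by positivity
    have hS := crossSum (w := (p : ℤ) ^ k * w0)
      (gen (p := p) (z := z) (wz := wz) (h := h) (k := k + 1) (j := k) (by omega))
      (ih.level (Nat.le_succ k)) (by nlinarith) le_rfl
    have key : h' (k + 1) - h (k + 1) =
        y - ∑ i ∈ Ioo 0 p, h k ^ i * c ^ (p - i) * ((p.choose i / p : ℕ) : A) := by
      have e2 := hh' k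
      rw [e1, map_add, hh, ey, add_pow_prime_eq' hp] at e2
      rw [← sub_eq_zero]
      apply hreg
      linear_combination -e2
    rw [key, pow_succ', mul_assoc]
    exact sub hy hS

end InF

end Pool.Agent.MP_6428c8_nt.H77
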