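import Pool.Agent.MP_6428c8_nt.H77.Transfer

set_option autoImplicit false

namespace Pool.Agent.MP_6428c8_nt.H77

open Finset Polynomial

/-- lower bound for the values at `ξ` of integer polynomials of degree at most `n`. -/
def LB (ξ : ℝ) (n : ℕ) (t : ℝ) : Prop :=
  ∀ w : ℝ, t < w → ∃ c H0 : ℝ, 0 < c ∧ ∀ (P : ℤ[X]) (H : ℝ), P ≠ 0 → P.natDegree ≤ n →
    (∀ i, |(P.coeff i : ℝ)| ≤ H) → H0 ≤ H → c * H ^ (-w) < |aeval ξ P|

variable {p : ℕ} [hp : Fact p.Prime]

theorem LB_of_multEst {N κ C n : ℕ} (hκ : 0 < κ) (hM : MultEst p N κ C) (hn : n < N) :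
    LB (FF p (1 / 2)) n ((κ : ℝ) - 1) := by
  obtain ⟨M, rfl⟩ : ∃ M, N = M + 1 := ⟨N - 1, by omega⟩
  intro w hw
  obtain ⟨c, H0, hc, h⟩ := transfer hκ hM hw
  exact ⟨c, H0, hc, fun P H h1 h2 h3 h4 => h P H h1 (by omega) h3 h4⟩

theorem LB.mono {ξ : ℝ} {n : ℕ} {t t' : ℝ} (h : LB ξ n t) (ht : t ≤ t') : LB ξ n t' :=
  fun w hw => h w (lt_of_le_of_lt ht hw)

theorem LB_main (hp1 : 10000 ≤ p) {n : ℕ} (hn : p ≤ n) :
    LB (FF p (1 / 2)) n ((p : ℝ) * n / 3 - 1) := by
  set r := Nat.log p n with hr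
  have hr0 : r ≠ 0 := by
    have := Nat.log_pos hp.out.one_lt hn
    omega
  have h1 : p ^ r ≤ n := Nat.pow_log_le_self p (by omega)
  have h2 : n < p ^ (r + 1) := Nat.lt_pow_succ_log_self hp.out.one_lt n
  have hq : 0 < p ^ r := pow_pos hp.out.pos r
  have h1' : (p : ℝ) ^ r ≤ n := by exact_mod_cast h1
  have hp' : (10000 : ℝ) ≤ p := by exact_mod_cast hp1
  have hq' : (0 : ℝ) < (p : ℝ) ^ r := by positivity
  by_cases h3 : n < 3 * p ^ r
  · obtain ⟨C, hC⟩ := multEst_three (p := p) (by omega) hr0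
    refine (LB_of_multEst (by positivity) hC h3).mono ?_
    push_cast
    nlinarith
  · obtain ⟨C, hC⟩ := multEst_top (p := p) (by omega) r
    refine (LB_of_multEst (by have := hp.out.pos; positivity) hC (by rwa [pow_succ'] at h2)).mono ?_
    have h4 : 3 * (p : ℝ) ^ r ≤ n := by exact_mod_cast not_lt.mp h3
    push_cast
    nlinarith

theorem coeff_le_supNorm (P : ℤ[X]) (i : ℕ) : |(P.coeff i : ℝ)| ≤ P.supNorm := by
  have := P.le_supNorm i
  rwa [Int.norm_eq_abs] at this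

theorem one_le_supNorm {P : ℤ[X]} (hP : P ≠ 0) : 1 ≤ P.supNorm := by
  refine le_trans ?_ (coeff_le_supNorm P P.natDegree)
  exact_mod_cast Int.one_le_abs (leadingCoeff_ne_zero.mpr hP)

theorem finite_bounded (n : ℕ) (B : ℝ) : {P : ℤ[X] | P.natDegree ≤ n ∧ P.supNorm ≤ B}.Finite := by
  have h : {a : ℤ | |(a : ℝ)| ≤ B}.Finite := by
    refine (Set.finite_Icc (-⌈B⌉) ⌈B⌉).subset fun a ha => ?_
    have h1 : |(a : ℝ)| ≤ (⌈B⌉ : ℝ) := le_trans ha (Int.le_ceil B)
    have h2 : |a| ≤ ⌈B⌉ := by exact_mod_cast h1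
    exact abs_le.mp h2
  let π : ℤ[X] → Fin (n + 1) → ℤ := fun f i => f.coeff i
  refine ((Set.Finite.pi fun _ => h).subset <| ?_).of_finite_image (?_ : Set.InjOn π _)
  · exact Set.image_subset_iff.2 fun f hf i _ => (coeff_le_supNorm f i).trans hf.2
  · refine fun x hx y hy hxy => (ext_iff_natDegree_le hx.1 hy.1).2 fun i hi => ?_
    exact id congr_fun hxy ⟨i, Nat.lt_succ_of_le hi⟩

theorem LB.finite {ξ : ℝ} {n : ℕ} {t w : ℝ} (h : LB ξ n t) (hw : t < w) (K : ℝ) :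
    {P : ℤ[X] | P ≠ 0 ∧ P.natDegree ≤ n ∧ |aeval ξ P| ≤ K * P.supNorm ^ (-w)}.Finite := by
  obtain ⟨c, H0, hc, h1⟩ := h ((t + w) / 2) (by linarith)
  have h2 : Filter.Tendsto (fun H : ℝ => H ^ ((w - t) / 2)) Filter.atTop Filter.atTop :=
    tendsto_rpow_atTop (by linarith)
  obtain ⟨H1, h3⟩ := Filter.eventually_atTop.mp (h2.eventually_ge_atTop (K / c))
  refine (finite_bounded n (max H0 H1)).subset fun P hP => ⟨hP.2.1, ?_⟩
  by_contra hh
  rw [not_le, max_lt_iff] at hh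
  have h4 := h1 P P.supNorm hP.1 hP.2.1 (coeff_le_supNorm P) hh.1.le
  have h5 := h3 _ hh.2.le
  have h6 := hP.2.2
  have hpos : 0 < P.supNorm := lt_of_lt_of_le one_pos (one_le_supNorm hP.1)
  have e : P.supNorm ^ (-((t + w) / 2)) = P.supNorm ^ ((w - t) / 2) * P.supNorm ^ (-w) := by
    rw [← Real.rpow_add hpos]; congr 1; ring
  rw [div_le_iff₀ hc] at h5
  have h7 : 0 < P.supNorm ^ (-w) := by positivity
  rw [e] at h4
  nlinarith

theorem LB.ne_zero {ξ : ℝ} {n : ℕ} {t : ℝ} (h : LB ξ n t) {P : ℤ[X]} (hP : P ≠ 0)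
    (hn : P.natDegree ≤ n) : aeval ξ P ≠ 0 := by
  obtain ⟨c, H0, hc, h1⟩ := h (t + 1) (by linarith)
  have h2 := h1 P (max H0 P.supNorm) hP hn (fun i => (coeff_le_supNorm P i).trans (le_max_right _ _))
    (le_max_left _ _)
  intro h0
  rw [h0, abs_zero] at h2
  have hpos : 0 < max H0 P.supNorm :=
    lt_of_lt_of_le (lt_of_lt_of_le one_pos (one_le_supNorm hP)) (le_max_right _ _)
  have : 0 < c * (max H0 P.supNorm) ^ (-(t + 1)) := by positivity
  linarith

theorem xi_transcendental (hp1 : 10000 ≤ p) : Transcendental ℚ (FF p (1 / 2)) := by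
  intro h
  obtain ⟨P, hP, h0⟩ := (IsFractionRing.isAlgebraic_iff ℤ ℚ ℝ).mpr h
  exact (LB_main hp1 (le_max_left p P.natDegree)).ne_zero hP (le_max_right _ _) h0

theorem value_le {ξ α : ℝ} (hξ : |ξ| ≤ 1) (hα : |ξ - α| ≤ 1) {P : ℤ[X]} {n : ℕ}
    (hn : P.natDegree ≤ n) (h0 : aeval α P = 0) :
    |aeval ξ P| ≤ ((n + 1) * (n * 2 ^ n)) * (P.supNorm * |ξ - α|) := by
  have e : aeval ξ P = ∑ i ∈ range (n + 1), (P.coeff i : ℝ) * (ξ ^ i - α ^ i) := by
    rw [← sub_zero (aeval ξ P), ← h0, aeval_eq_sum_range' (Nat.lt_succ_of_le hn),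
      aeval_eq_sum_range' (Nat.lt_succ_of_le hn), ← Finset.sum_sub_distrib]
    exact Finset.sum_congr rfl fun i _ => by rw [zsmul_eq_mul, zsmul_eq_mul]; ring
  have hα2 : |α| ≤ 2 := by
    have := abs_sub_abs_le_abs_sub α ξ
    rw [abs_sub_comm] at this; linarith
  rw [e]
  refine (Finset.abs_sum_le_sum_abs _ _).trans ?_
  have : ∀ i ∈ range (n + 1), |(P.coeff i : ℝ) * (ξ ^ i - α ^ i)| ≤
      (n * 2 ^ n) * (P.supNorm * |ξ - α|) := by
    intro i hi
    have hi' : i ≤ n := Nat.lt_succ_iff.mp (mem_range.mp hi)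
    have hi2 : (i : ℝ) ≤ n := by exact_mod_cast hi'
    have m1 : max |ξ| |α| ^ (i - 1) ≤ 2 ^ n :=
      (pow_le_pow_left₀ (by positivity) (max_le (by linarith) hα2) _).trans
        (pow_le_pow_right₀ (by norm_num) (by omega))
    have m2 := P.supNorm_nonneg
    rw [abs_mul]
    calc _ ≤ P.supNorm * (|ξ - α| * n * 2 ^ n) := by
          refine mul_le_mul (coeff_le_supNorm P i) ((abs_pow_sub_pow_le _ _ _).trans ?_)
            (abs_nonneg _) m2
          gcongr
      _ = _ := by ring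
  refine (Finset.sum_le_sum this).trans (le_of_eq ?_)
  rw [Finset.sum_const, card_range, nsmul_eq_mul]; push_cast; ring

theorem LB.finite_star {ξ : ℝ} (hξ : |ξ| ≤ 1) {n : ℕ} {t w : ℝ} (h : LB ξ n t) (hw : t < w)
    (hw0 : 0 ≤ w) :
    {α : ℝ | ∃ P : ℤ[X], P ≠ 0 ∧ P.natDegree ≤ n ∧ aeval α P = 0 ∧
      |ξ - α| ≤ P.supNorm ^ (-w - 1)}.Finite := by
  have h1 := h.finite hw ((n + 1) * (n * 2 ^ n))
  refine (h1.biUnion fun P _ => (P.rootSet_finite ℝ)).subset ?_
  rintro α ⟨P, hP, hn, h0, h2⟩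
  have h3 := one_le_supNorm hP
  have hpos : 0 < P.supNorm := by linarith
  refine Set.mem_biUnion (x := P) ⟨hP, hn, ?_⟩ ((mem_rootSet_of_ne hP).mpr h0)
  refine (value_le hξ (h2.trans (Real.rpow_le_one_of_one_le_of_nonpos h3 (by linarith))) hn h0).trans ?_
  refine mul_le_mul_of_nonneg_left ?_ (by positivity)
  calc P.supNorm * |ξ - α| ≤ P.supNorm * P.supNorm ^ (-w - 1) := by gcongr
    _ = _ := by rw [Real.rpow_sub hpos, Real.rpow_one]; field_simp

/-! ### The rational approximations -/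

variable (p) in
def sNum (k : ℕ) : ℤ := ∑ j ∈ range (k + 1), 2 ^ (p ^ k - p ^ j)

variable (p) in
noncomputable def linP (k : ℕ) : ℤ[X] := C ((2 : ℤ) ^ (p ^ k)) * X + C (-sNum p k)

variable (p) in
noncomputable def alph (k : ℕ) : ℝ := ∑ j ∈ range (k + 1), (1 / 2 : ℝ) ^ (p ^ j)

theorem sNum_eq (k : ℕ) : (sNum p k : ℝ) = 2 ^ (p ^ k) * alph p k := by
  rw [sNum, alph, Finset.mul_sum]
  push_cast
  refine Finset.sum_congr rfl fun j hj => ?_
  have : p ^ j ≤ p ^ k := Nat.pow_le_pow_right hp.out.pos (Nat.lt_succ_iff.mp (mem_range.mp hj))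
  obtain ⟨t, ht⟩ := Nat.exists_eq_add_of_le this
  rw [ht, Nat.add_sub_cancel_left, pow_add, one_div_pow]
  field_simp

theorem aeval_linP (k : ℕ) (x : ℝ) : aeval x (linP p k) = 2 ^ (p ^ k) * (x - alph p k) := by
  simp only [linP, map_add, map_mul, aeval_C, aeval_X, map_neg, map_pow]
  simp only [algebraMap_int_eq, eq_intCast, Int.cast_ofNat, sNum_eq]
  ring

theorem linP_irred (k : ℕ) : Irreducible (linP p k) := by
  refine irreducible_C_mul_X_add_C (by positivity) ?_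
  have : ∃ t, sNum p k = 2 * t + 1 := by
    refine ⟨∑ j ∈ range k, 2 ^ (p ^ k - p ^ j - 1), ?_⟩
    rw [sNum, Finset.sum_range_succ, Nat.sub_self, pow_zero, Finset.mul_sum]
    congr 1
    refine Finset.sum_congr rfl fun j hj => ?_
    have : p ^ j < p ^ k := Nat.pow_lt_pow_right hp.out.one_lt (mem_range.mp hj)
    rw [← pow_succ']; congr 1; omega
  obtain ⟨t, ht⟩ := this
  have h2 : IsCoprime (2 : ℤ) (sNum p k) := ⟨-t, 1, by rw [ht]; ring⟩
  exact (h2.pow_left.neg_right).isRelPrime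

theorem linP_natDegree (k : ℕ) : (linP p k).natDegree ≤ 1 := by
  unfold linP; compute_degree

theorem linP_coeff_one (k : ℕ) : (linP p k).coeff 1 = 2 ^ (p ^ k) := by
  simp [linP, coeff_C, -map_pow, -eq_intCast, -map_neg]

theorem linP_leadingCoeff (k : ℕ) : 0 < (linP p k).leadingCoeff := by
  rw [linP, leadingCoeff_linear (by positivity)]; positivity

theorem xi_sub_alph (k : ℕ) : 0 < FF p (1 / 2) - alph p k ∧
    FF p (1 / 2) - alph p k ≤ 2 * (1 / 2) ^ (p ^ (k + 1)) := by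
  have h := FF_split (p := p) (x := 1 / 2) (by norm_num) le_rfl (k + 1)
  have h2 := pow_le_half (p := p) (x := 1 / 2) (by norm_num) le_rfl (k + 1)
  have h3 := FF_pos (p := p) (by positivity) h2
  have h4 := FF_le (p := p) (by positivity) h2
  rw [alph]; constructor <;> linarith

theorem xi_le_one : |FF p (1 / 2)| ≤ 1 := by
  have h4 := FF_le (p := p) (x := 1 / 2) (by norm_num) le_rfl
  rw [abs_of_nonneg (FF_nonneg (by norm_num))]; linarith

theorem linP_supNorm (k : ℕ) : (linP p k).supNorm ≤ 2 ^ (p ^ k) := by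
  obtain ⟨i, hi⟩ := (linP p k).exists_eq_supNorm
  rw [hi, Int.norm_eq_abs]
  rcases i with _ | _ | i
  · have e : (linP p k).coeff 0 = -sNum p k := by simp [linP, -map_pow, -eq_intCast, -map_neg]
    rw [e, Int.cast_neg, abs_neg, sNum_eq, abs_mul, abs_of_nonneg (by positivity)]
    refine mul_le_of_le_one_right (by positivity) ?_
    have h1 := (xi_sub_alph (p := p) k).1
    have h2 := abs_le.mp (xi_le_one (p := p))
    rw [abs_of_nonneg (by rw [alph]; positivity)]; linarith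
  · rw [zero_add, linP_coeff_one]; push_cast; rw [abs_of_nonneg (by positivity)]
  · rw [coeff_eq_zero_of_natDegree_lt (lt_of_le_of_lt (linP_natDegree k) (by omega))]
    simp

theorem xi_sub_alph_le (k : ℕ) :
    FF p (1 / 2) - alph p k ≤ ((2 : ℝ) ^ (p ^ k)) ^ (-((p : ℝ) - 2) - 1) := by
  refine (xi_sub_alph k).2.trans ?_
  have hd : (2 : ℝ) ≤ 2 ^ (p ^ k) := le_self_pow₀ (by norm_num) (pow_pos hp.out.pos k).ne'
  set d : ℝ := 2 ^ (p ^ k) with hdd
  have e1 : (1 / 2 : ℝ) ^ (p ^ (k + 1)) = (d ^ p)⁻¹ := by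
    rw [hdd, ← pow_mul, ← pow_succ, one_div, inv_pow]
  have e2 : d ^ (-((p : ℝ) - 2) - 1) = d * (d ^ p)⁻¹ := by
    rw [show -((p : ℝ) - 2) - 1 = 1 - p by ring, Real.rpow_sub (by linarith), Real.rpow_one,
      Real.rpow_natCast, div_eq_mul_inv]
  rw [e1, e2]
  gcongr

theorem infinite_M : {P : ℤ[X] | P.natDegree ≤ 1 ∧ 0 < |aeval (FF p (1 / 2)) P| ∧
    |aeval (FF p (1 / 2)) P| ≤ P.supNorm ^ (-((p : ℝ) - 2))}.Infinite := by
  refine Set.infinite_of_injective_forall_mem (f := linP p) (fun a b h => ?_) fun k => ?_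
  · have := congrArg (fun P => coeff P 1) h
    simp only [linP_coeff_one] at this
    exact Nat.pow_right_injective hp.out.two_le
      (pow_right_injective₀ (by norm_num : (0 : ℤ) < 2) (by norm_num) this)
  · have h1 := (xi_sub_alph (p := p) k).1
    have h2 := xi_sub_alph_le (p := p) k
    have hp2 : (2 : ℝ) ≤ p := by exact_mod_cast hp.out.two_le
    have hd : (0 : ℝ) < 2 ^ (p ^ k) := by positivity
    refine ⟨linP_natDegree k, ?_, ?_⟩
    · rw [aeval_linP]; exact abs_pos.mpr (mul_pos hd h1).ne'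
    · rw [aeval_linP, abs_of_pos (mul_pos hd h1)]
      refine le_trans ?_ (Real.rpow_le_rpow_of_nonpos
        (lt_of_lt_of_le one_pos (one_le_supNorm (linP_irred k).ne_zero)) (linP_supNorm k)
        (by linarith))
      rw [Real.rpow_sub hd, Real.rpow_one, le_div_iff₀ hd] at h2
      linarith

theorem infinite_K : {α : ℝ | ∃ P : ℤ[X], Irreducible P ∧ 0 < P.leadingCoeff ∧ aeval α P = 0 ∧
    P.natDegree ≤ 1 ∧ 0 < |FF p (1 / 2) - α| ∧
    |FF p (1 / 2) - α| ≤ P.supNorm ^ (-((p : ℝ) - 2) - 1)}.Infinite := by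
  refine Set.infinite_of_injective_forall_mem (f := alph p) (StrictMono.injective ?_) fun k => ?_
  · refine strictMono_nat_of_lt_succ fun k => ?_
    rw [alph, alph, Finset.sum_range_succ _ (k + 1)]
    have : (0 : ℝ) < (1 / 2) ^ (p ^ (k + 1)) := by positivity
    linarith
  · have h1 := (xi_sub_alph (p := p) k).1
    have h2 := xi_sub_alph_le (p := p) k
    have hp2 : (2 : ℝ) ≤ p := by exact_mod_cast hp.out.two_le
    refine ⟨linP p k, linP_irred k, linP_leadingCoeff k, by rw [aeval_linP]; simp,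
      linP_natDegree k, abs_pos.mpr h1.ne', ?_⟩
    rw [abs_of_pos h1]
    exact h2.trans (Real.rpow_le_rpow_of_nonpos
      (lt_of_lt_of_le one_pos (one_le_supNorm (linP_irred k).ne_zero)) (linP_supNorm k)
      (by linarith))

/-! ### The extended real bookkeeping -/

theorem ereal_main (W : ℕ → EReal) (P : ℝ) (hP : 4 ≤ P) (N : ℕ)
    (hup : ∀ n, N ≤ n → W n ≤ ((P * n / 3 - 1 : ℝ) : EReal)) (hlow : ((P - 2 : ℝ) : EReal) ≤ W 1) :
    Filter.limsup (fun n : ℕ => W n / n) Filter.atTop < ⊤ ∧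
    Filter.limsup (fun n : ℕ => (W n + 1) / (n + 1)) Filter.atTop <
      ⨆ n : ℕ, ⨆ (_ : 1 ≤ n), (W n + 1) / (n + 1) := by
  have cast1 : ∀ n : ℕ, (n : EReal) + 1 = (((n : ℝ) + 1 : ℝ) : EReal) := fun n => by
    rw [EReal.coe_add, EReal.coe_natCast, EReal.coe_one]
  constructor
  · refine lt_of_le_of_lt (Filter.limsup_le_of_le (a := ((P / 3 : ℝ) : EReal)) (h := ?_))
      (EReal.coe_lt_top _)
    filter_upwards [Filter.eventually_ge_atTop N, Filter.eventually_ge_atTop 1] with n h1 h2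
    have h3 : (0 : ℝ) < n := by exact_mod_cast h2
    rw [← EReal.coe_natCast, EReal.div_le_iff_le_mul (by exact_mod_cast h3) (EReal.coe_ne_top _),
      ← EReal.coe_mul]
    refine (hup n h1).trans (EReal.coe_le_coe_iff.mpr ?_)
    linarith
  · refine lt_of_le_of_lt (Filter.limsup_le_of_le (a := ((P / 3 : ℝ) : EReal)) (h := ?_)) ?_
    · filter_upwards [Filter.eventually_ge_atTop N] with n h1
      have h3 : (0 : ℝ) < n + 1 := by positivity
      rw [cast1, EReal.div_le_iff_le_mul (by exact_mod_cast h3) (EReal.coe_ne_top _),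
        ← EReal.coe_mul]
      refine (add_le_add_left (hup n h1) 1).trans ?_
      rw [← EReal.coe_one, ← EReal.coe_add, EReal.coe_le_coe_iff]
      linarith
    · refine lt_of_lt_of_le ?_ (le_iSup₂_of_le 1 le_rfl le_rfl)
      refine lt_of_lt_of_le (b := (((P - 1) / 2 : ℝ) : EReal)) (EReal.coe_lt_coe_iff.mpr (by linarith)) ?_
      rw [cast1, EReal.le_div_iff_mul_le (by exact_mod_cast (by positivity : (0 : ℝ) < ((1 : ℕ) : ℝ) + 1))
        (EReal.coe_ne_top _), ← EReal.coe_mul]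
      refine le_trans ?_ (add_le_add_left hlow 1)
      rw [← EReal.coe_one, ← EReal.coe_add, EReal.coe_le_coe_iff]
      push_cast; linarith

end Pool.Agent.MP_6428c8_nt.H77
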