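import Pool.Agent.MP_6428c8_nt.H77.Tower0

set_option autoImplicit false

namespace Pool.Agent.MP_6428c8_nt.H77

open Finset PowerSeries

variable (p : ℕ) [hp : Fact p.Prime]

/-- span of the monomials that are standard below level `k` and have index at most `m`. -/
def U0 (k : ℕ) (m : ℤ) : AddSubgroup ℤ⟦X⟧ :=
  AddSubgroup.closure {y | ∃ (a : ℕ) (n : I p k) (i : ℕ),
    (idx p k n : ℤ) + i * (p : ℤ) ^ k ≤ m ∧ y = X ^ a * (bas p (g0 p) k n * g0 p k ^ i)}

variable {p}

theorem U0_mono {k : ℕ} {m m' : ℤ} (h : m ≤ m') {x : ℤ⟦X⟧} (hx : x ∈ U0 p k m) :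
    x ∈ U0 p k m' := by
  refine AddSubgroup.closure_mono ?_ hx
  rintro y ⟨a, n, i, h1, h2⟩
  exact ⟨a, n, i, h1.trans h, h2⟩

theorem U0_mul_of {k : ℕ} {w w' : ℤ} {y x : ℤ⟦X⟧}
    (H : ∀ (a : ℕ) (n : I p k) (i : ℕ), (idx p k n : ℤ) + i * (p : ℤ) ^ k ≤ w →
      y * (X ^ a * (bas p (g0 p) k n * g0 p k ^ i)) ∈ U0 p k w')
    (hx : x ∈ U0 p k w) : y * x ∈ U0 p k w' := by
  induction hx using AddSubgroup.closure_induction with
  | mem x hx => obtain ⟨a, n, i, h1, rfl⟩ := hx; exact H a n i h1
  | zero => rw [mul_zero]; exact zero_mem _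
  | add x x' _ _ h1 h2 => rw [mul_add]; exact add_mem h1 h2
  | neg x _ h1 => rw [mul_neg]; exact neg_mem h1

theorem U0_mulX {k : ℕ} {w : ℤ} {x : ℤ⟦X⟧} (b : ℕ) (hx : x ∈ U0 p k w) :
    X ^ b * x ∈ U0 p k w := by
  refine U0_mul_of (fun a n i h => AddSubgroup.subset_closure ⟨a + b, n, i, h, ?_⟩) hx
  ring

theorem U0_mulTop {k : ℕ} {w : ℤ} {x : ℤ⟦X⟧} (b : ℕ) (hx : x ∈ U0 p k w) :
    g0 p k ^ b * x ∈ U0 p k (w + b * (p : ℤ) ^ k) := by
  refine U0_mul_of (fun a n i h => AddSubgroup.subset_closure ⟨a, n, i + b, ?_, ?_⟩) hx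
  · push_cast; linarith
  · ring

theorem U0_const {k : ℕ} {w : ℤ} (hw : 0 ≤ w) (c : ℤ) : (c : ℤ⟦X⟧) ∈ U0 p k w := by
  have h1 : (1 : ℤ⟦X⟧) ∈ U0 p k w :=
    AddSubgroup.subset_closure ⟨0, zeroI p hp.out.pos k, 0, by simpa [idx_zeroI] using hw,
      by simp [bas_zeroI]⟩
  simpa using AddSubgroup.zsmul_mem _ h1 c

theorem U0_step {k : ℕ} (B : ∀ (m : ℤ) (x : ℤ⟦X⟧), InF p X 0 (g0 p) k m x → x ∈ U0 p k m)
    (m : ℤ) (x : ℤ⟦X⟧) (hx : InF p X 0 (g0 p) (k + 1) m x) : x ∈ U0 p k m := by
  induction hx with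
  | zero w => exact zero_mem _
  | const c w hw => exact U0_const hw c
  | add _ _ h1 h2 => exact add_mem h1 h2
  | mulz _ h1 ih => simpa using U0_mono (by simpa using h1) (U0_mulX 1 ih)
  | @mulh w w' x j hj _ h1 ih =>
    rcases Nat.lt_succ_iff_lt_or_eq.mp hj with hj | rfl
    · refine U0_mul_of (fun a n i h => ?_) ih
      have h2 : InF p X 0 (g0 p) k ((p : ℤ) ^ j + idx p k n) (g0 p j * bas p (g0 p) k n) :=
        InF.mul (InF.gen hj) (bas_mem k (fun j hj => InF.gen hj) n)
      have h3 := U0_mulX a (U0_mulTop i (B _ _ h2))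
      have h4 := U0_mono (m' := w') (by linarith) h3
      convert h4 using 1; ring
    · simpa using U0_mono (by simpa using h1) (U0_mulTop 1 ih)

theorem U0_of_InF : ∀ (k : ℕ) (m : ℤ) (x : ℤ⟦X⟧), InF p X 0 (g0 p) k m x → x ∈ U0 p k m := by
  intro k
  induction k with
  | zero =>
    intro m x hx
    induction hx with
    | zero w => exact zero_mem _
    | const c w hw => exact U0_const hw c
    | add _ _ h1 h2 => exact add_mem h1 h2
    | mulz _ h1 ih => simpa using U0_mono (by simpa using h1) (U0_mulX 1 ih)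
    | mulh j hj _ h1 ih => omega
  | succ k B =>
    have C := U0_step B
    have key : ∀ (N : ℕ) (m : ℤ), m < N → ∀ x, InF p X 0 (g0 p) (k + 1) m x →
        x ∈ U0 p (k + 1) m := by
      intro N
      induction N with
      | zero => intro m hm x hx; rw [hx.eq_zero_of_neg le_rfl (by simpa using hm)]; exact zero_mem _
      | succ N ih =>
        intro m hm x hx
        have hx' := C m x hx
        rw [← one_mul x]
        clear hx
        induction hx' using AddSubgroup.closure_induction with
        | zero => rw [mul_zero]; exact zero_mem _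
        | add x x' _ _ h1 h2 => rw [mul_add]; exact add_mem h1 h2
        | neg x _ h1 => rw [mul_neg]; exact neg_mem h1
        | mem x hx =>
          obtain ⟨a, n, i, h1, rfl⟩ := hx
          rw [one_mul]
          refine U0_mulX a ?_
          by_cases hi : i < p
          · refine AddSubgroup.subset_closure ⟨0, (n, ⟨i, hi⟩), 0, ?_, ?_⟩
            · simpa [idx] using h1
            · simp [bas]
          · obtain ⟨i', rfl⟩ := Nat.exists_eq_add_of_le (not_lt.mp hi)
            have hp2 : (2 : ℤ) ≤ p := by exact_mod_cast hp.out.two_le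
            have hpk : (0 : ℤ) < (p : ℤ) ^ k := by positivity
            set u := bas p (g0 p) k n * g0 p k ^ i' with hu
            set w : ℤ := idx p k n + i' * (p : ℤ) ^ k with hw
            have hw1 : w + p * (p : ℤ) ^ k ≤ m := by push_cast at h1; linarith
            have hu1 : InF p X 0 (g0 p) (k + 1) w u :=
              InF.mul (bas_mem k (fun j hj => InF.gen (by omega)) n)
                ((InF.gen (Nat.lt_succ_self k)).pow i')
            have hc : InF p X 0 (g0 p) (k + 1) ((p : ℤ) ^ k) (phi p (g0 p k)) := by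
              have := InF.add (InF.gen (Nat.lt_succ_self k)) ((c_mem_idx p k).level (Nat.le_succ k))
              simpa using this
            have hm' : (m : ℤ) ≤ N := by push_cast at hm; omega
            have t1 := ih _ (by nlinarith) _ (InF.mul hu1 hc)
            have t2 := U0_mulTop 1 (ih _ (by nlinarith) _ (hu1.natMul p))
            have e : bas p (g0 p) k n * g0 p k ^ (p + i') =
                u * phi p (g0 p k) - g0 p (k + 1) ^ 1 * (p * u) := by
              rw [phi_g0, hu]; ring
            rw [e]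
            refine sub_mem (U0_mono (by nlinarith) t1) (U0_mono ?_ t2)
            rw [pow_succ']; push_cast; linarith
    intro m x hx
    exact key (m.toNat + 1) m (by omega) x hx

theorem U0_repr {r a : ℕ} {m : ℤ} (hm : m < a * (p : ℤ) ^ r) {x : ℤ⟦X⟧} (hx : x ∈ U0 p r m) :
    ∃ B : I p r × Fin a → Polynomial ℤ,
      x = ∑ ι, (B ι : ℤ⟦X⟧) * (bas p (g0 p) r ι.1 * g0 p r ^ (ι.2 : ℕ)) := by
  classical
  induction hx using AddSubgroup.closure_induction with
  | mem x hx =>
    obtain ⟨b, n, i, h1, rfl⟩ := hx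
    have hi : i < a := by
      by_contra hi
      have h2 : (a : ℤ) ≤ i := by exact_mod_cast not_lt.mp hi
      have hpk : (0 : ℤ) ≤ (p : ℤ) ^ r := by positivity
      have h3 : (0 : ℤ) ≤ idx p r n := by positivity
      nlinarith
    refine ⟨Pi.single (n, ⟨i, hi⟩) (Polynomial.X ^ b), ?_⟩
    rw [Finset.sum_eq_single (n, ⟨i, hi⟩)]
    · simp
    · intro ι _ hι; simp [Pi.single_eq_of_ne hι]
    · simp
  | zero => exact ⟨0, by simp⟩
  | add x x' _ _ h1 h2 =>
    obtain ⟨B, rfl⟩ := h1
    obtain ⟨B', rfl⟩ := h2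
    exact ⟨B + B', by simp [add_mul, Finset.sum_add_distrib]⟩
  | neg x _ h1 =>
    obtain ⟨B, rfl⟩ := h1
    exact ⟨-B, by simp⟩

theorem f0_pow_repr {r a b : ℕ} (hb : b < a * p ^ r) :
    ∃ B : I p r × Fin a → Polynomial ℤ,
      f0 p ^ b = ∑ ι, (B ι : ℤ⟦X⟧) * (bas p (g0 p) r ι.1 * g0 p r ^ (ι.2 : ℕ)) := by
  refine U0_repr (m := b) (by exact_mod_cast hb) ?_
  refine U0_step (U0_of_InF r) _ _ ?_
  have := (InF.gen (p := p) (z := X) (wz := 0) (h := g0 p) (k := r + 1) (j := 0) (by omega)).pow b
  simpa [g0] using this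

/-! ### Transcendence of `f` over `ℤ[z]` -/

theorem deg_contra {a b : Polynomial ℤ} (ha : a ≠ 0) {m : ℕ} (hm : m ≠ 0)
    (h : a * Polynomial.expand ℤ p b =
      Polynomial.expand ℤ p a * (b + (m : Polynomial ℤ) * Polynomial.X * a)) : False := by
  have hp2 := hp.out.two_le
  have hea : Polynomial.expand ℤ p a ≠ 0 := by
    rwa [Ne, Polynomial.expand_eq_zero (by omega)]
  have hmX : (m : Polynomial ℤ) * Polynomial.X * a ≠ 0 :=
    mul_ne_zero (mul_ne_zero (by exact_mod_cast hm) Polynomial.X_ne_zero) ha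
  have hdeg : ((m : Polynomial ℤ) * Polynomial.X * a).natDegree = a.natDegree + 1 := by
    rw [Polynomial.natDegree_mul (left_ne_zero_of_mul hmX) ha,
      Polynomial.natDegree_mul (by exact_mod_cast hm) Polynomial.X_ne_zero]
    simp [add_comm]
  by_cases hb : b = 0
  · subst hb
    simp only [map_zero, mul_zero, zero_add] at h
    exact mul_ne_zero hea hmX h.symm
  have heb : Polynomial.expand ℤ p b ≠ 0 := by
    rwa [Ne, Polynomial.expand_eq_zero (by omega)]
  have hs : b + (m : Polynomial ℤ) * Polynomial.X * a ≠ 0 := by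
    intro h0
    rw [h0, mul_zero] at h
    exact mul_ne_zero ha heb h
  have hd := congrArg Polynomial.natDegree h
  rw [Polynomial.natDegree_mul ha heb, Polynomial.natDegree_mul hea hs,
    Polynomial.natDegree_expand, Polynomial.natDegree_expand] at hd
  rcases lt_trichotomy b.natDegree (a.natDegree + 1) with hl | hl | hl
  · rw [Polynomial.natDegree_add_eq_right_of_natDegree_lt (by omega), hdeg] at hd
    have : b.natDegree * p ≤ a.natDegree * p := Nat.mul_le_mul_right _ (by omega)
    omega
  · have := Polynomial.natDegree_add_le b ((m : Polynomial ℤ) * Polynomial.X * a)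
    rw [hdeg, hl] at this
    rw [hl] at hd
    simp only [max_self] at this
    nlinarith
  · rw [Polynomial.natDegree_add_eq_left_of_natDegree_lt (by omega)] at hd
    obtain ⟨t, ht⟩ := Nat.exists_eq_add_of_lt hl
    rw [ht] at hd
    nlinarith

theorem coe_expand (a : Polynomial ℤ) :
    ((Polynomial.expand ℤ p a : Polynomial ℤ) : ℤ⟦X⟧) = phi p (a : ℤ⟦X⟧) := by
  ext n
  rw [phi_apply, coeff_expand, Polynomial.coeff_coe, Polynomial.coeff_expand hp.out.pos,
    Polynomial.coeff_coe]

theorem f0_transc (G : Polynomial (Polynomial ℤ))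
    (hG : G.eval₂ Polynomial.coeToPowerSeries.ringHom (f0 p) = 0) : G = 0 := by
  induction hn : G.natDegree using Nat.strong_induction_on generalizing G with
  | _ m ih =>
  by_contra hG0
  set ι : Polynomial ℤ →+* ℤ⟦X⟧ := Polynomial.coeToPowerSeries.ringHom with hι
  rcases Nat.eq_zero_or_pos m with rfl | hm
  · rw [Polynomial.eq_C_of_natDegree_eq_zero hn] at hG hG0
    simp only [Polynomial.eval₂_C, hι, Polynomial.coeToPowerSeries.ringHom_apply,
      Polynomial.coe_eq_zero_iff] at hG
    exact hG0 (by rw [hG]; simp)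
  set e : Polynomial ℤ →+* Polynomial ℤ := (Polynomial.expand ℤ p).toRingHom with he
  have einj : Function.Injective e := Polynomial.expand_injective hp.out.pos
  set G1 := Polynomial.taylor (-Polynomial.X) (G.map e) with hG1
  have h1 : G1.eval₂ ι (f0 p) = 0 := by
    rw [hG1, Polynomial.taylor_apply, Polynomial.eval₂_comp, Polynomial.eval₂_map]
    have e1 : ι.comp e = (phi p).comp ι := by
      ext1
      · ext1 n; simp
      · simp [hι, he, phi_X]
    have e2 : Polynomial.eval₂ ι (f0 p) (Polynomial.X + Polynomial.C (-Polynomial.X)) =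
        phi p (f0 p) := by
      rw [Polynomial.eval₂_add, Polynomial.eval₂_X, Polynomial.eval₂_C, map_neg, hι,
        Polynomial.coeToPowerSeries.ringHom_apply, Polynomial.coe_X]
      linear_combination f0_eq p
    rw [e1, e2, ← Polynomial.hom_eval₂, hG, map_zero]
  have hd1 : G1.natDegree = m := by
    rw [hG1, Polynomial.natDegree_taylor, Polynomial.natDegree_map_eq_of_injective einj, hn]
  have hl1 : G1.coeff m = e (G.coeff m) := by
    have := Polynomial.coeff_taylor_natDegree (-Polynomial.X) (G.map e)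
    rw [Polynomial.natDegree_map_eq_of_injective einj, hn] at this
    rw [hG1, this, Polynomial.leadingCoeff, Polynomial.natDegree_map_eq_of_injective einj, hn,
      Polynomial.coeff_map]
  set a := G.coeff m with ha
  have ha0 : a ≠ 0 := by
    rw [ha, ← hn]; exact Polynomial.leadingCoeff_ne_zero.mpr hG0
  set D := Polynomial.C (e a) * G - Polynomial.C a * G1 with hD
  have hD0 : D = 0 := by
    refine ih D.natDegree ?_ D ?_ rfl
    · have hle : D.natDegree ≤ m := by
        refine (Polynomial.natDegree_sub_le _ _).trans (max_le ?_ ?_)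
        · exact (Polynomial.natDegree_C_mul_le _ _).trans hn.le
        · exact (Polynomial.natDegree_C_mul_le _ _).trans hd1.le
      have hc : D.coeff m = 0 := by
        rw [hD, Polynomial.coeff_sub, Polynomial.coeff_C_mul, Polynomial.coeff_C_mul, hl1, ← ha]
        ring
      rcases hle.lt_or_eq with h | h
      · exact h
      · by_cases hD' : D = 0
        · rw [hD']; simpa using hm
        · exfalso; apply Polynomial.leadingCoeff_ne_zero.mpr hD'
          rw [Polynomial.leadingCoeff, h, hc]
    · rw [hD, Polynomial.eval₂_sub, Polynomial.eval₂_mul, Polynomial.eval₂_mul, hG, h1]; simp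
  obtain ⟨m', rfl⟩ : ∃ m', m = m' + 1 := ⟨m - 1, by omega⟩
  have hc1 : G1.coeff m' = e (G.coeff m') - ((m' + 1 : ℕ) : Polynomial ℤ) * Polynomial.X * e a := by
    rw [hG1, Polynomial.taylor_coeff]
    have hle : (Polynomial.hasseDeriv m' (G.map e)).natDegree ≤ 1 := by
      refine (Polynomial.natDegree_hasseDeriv_le _ _).trans ?_
      rw [Polynomial.natDegree_map_eq_of_injective einj, hn]; omega
    rw [Polynomial.eq_X_add_C_of_natDegree_le_one hle]
    simp only [Polynomial.hasseDeriv_coeff, Polynomial.eval_add, Polynomial.eval_mul,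
      Polynomial.eval_C, Polynomial.eval_X, Polynomial.coeff_map, zero_add, Nat.choose_self]
    rw [add_comm 1 m', Nat.choose_succ_self_right, ← ha]
    push_cast; ring
  have hc := congrArg (fun P => Polynomial.coeff P m') hD0
  simp only [hD, Polynomial.coeff_sub, Polynomial.coeff_C_mul, hc1, Polynomial.coeff_zero] at hc
  refine deg_contra (p := p) ha0 (m := m' + 1) (by omega) (b := G.coeff m') ?_
  have e3 : ∀ x, e x = Polynomial.expand ℤ p x := fun x => rfl
  rw [e3, e3] at hc
  linear_combination -hc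

theorem f0_indep {N : ℕ} (A : Fin N → Polynomial ℤ)
    (h : ∑ b, (A b : ℤ⟦X⟧) * f0 p ^ (b : ℕ) = 0) : A = 0 := by
  have := f0_transc (p := p) (∑ b : Fin N, Polynomial.monomial (b : ℕ) (A b)) (by
    rw [Polynomial.eval₂_finsetSum]
    simpa [Polynomial.eval₂_monomial] using h)
  ext1 b
  have h2 := congrArg (fun P => Polynomial.coeff P b) this
  simp only [Polynomial.finsetSum_coeff, Polynomial.coeff_monomial, Polynomial.coeff_zero] at h2
  rw [Finset.sum_eq_single b] at h2
  · simpa using h2
  · intro c _ hc; rw [if_neg]; exact fun h => hc (Fin.ext h)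
  · simp

end Pool.Agent.MP_6428c8_nt.H77
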