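import Pool.Agent.MP_6428c8_nt.H77.Claims
import Pool.Agent.MP_6428c8_nt.H77.Std0

set_option autoImplicit false

namespace Pool.Agent.MP_6428c8_nt.H77

open Finset PowerSeries

variable (p : ℕ) [hp : Fact p.Prime]

/-- multiplicity estimate with slope `κ` for the family `1, f, ..., f ^ (N - 1)`. -/
def MultEst (N κ C : ℕ) : Prop :=
  ∀ (A : Fin N → Polynomial ℤ) (ν s : ℕ), A ≠ 0 → (∀ b, (A b).natDegree ≤ ν) →
    X ^ s ∣ ∑ b, (A b : ℤ⟦X⟧) * f0 p ^ (b : ℕ) → s ≤ κ * ν + C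

variable {p}

theorem divide_p {J : Type*} [Fintype J] (e : J → ℤ⟦X⟧) (D s : ℕ) (j0 : J) (n0 : ℕ) :
    ∀ (m : ℕ) (A : J → Polynomial ℤ), ((A j0).coeff n0).natAbs = m → m ≠ 0 →
      (∀ j, (A j).natDegree ≤ D) → X ^ s ∣ ∑ j, (A j : ℤ⟦X⟧) * e j →
      ∃ A' : J → Polynomial ℤ, (∃ j, (A' j).map (Int.castRingHom (ZMod p)) ≠ 0) ∧
        (∀ j, (A' j).natDegree ≤ D) ∧ X ^ s ∣ ∑ j, (A' j : ℤ⟦X⟧) * e j := by
  intro m
  induction m using Nat.strong_induction_on with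
  | _ m ih =>
    intro A hm hm0 hD hs
    by_cases h : ∃ j, (A j).map (Int.castRingHom (ZMod p)) ≠ 0
    · exact ⟨A, h, hD, hs⟩
    push Not at h
    have : ∀ j, ∃ A', A j = Polynomial.C (p : ℤ) * A' := by
      intro j
      refine (Polynomial.C_dvd_iff_dvd_coeff _ _).mpr fun n => ?_
      have := congrArg (fun P => Polynomial.coeff P n) (h j)
      simpa [ZMod.intCast_zmod_eq_zero_iff_dvd] using this
    choose A' hA' using this
    have hp0 : (p : ℤ) ≠ 0 := by exact_mod_cast hp.out.ne_zero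
    have hc : m = p * ((A' j0).coeff n0).natAbs := by
      rw [← hm, hA', Polynomial.coeff_C_mul, Int.natAbs_mul, Int.natAbs_natCast]
    have hp2 := hp.out.two_le
    refine ih ((A' j0).coeff n0).natAbs ?_ A' rfl ?_ (fun j => ?_) ?_
    · have : ((A' j0).coeff n0).natAbs ≠ 0 := fun h0 => hm0 (by rw [hc, h0, mul_zero])
      nlinarith [Nat.pos_of_ne_zero this]
    · exact fun h0 => hm0 (by rw [hc, h0, mul_zero])
    · have := hD j
      rwa [hA', Polynomial.natDegree_C_mul hp0] at this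
    · have e1 : ∑ j, (A j : ℤ⟦X⟧) * e j = (p : ℤ⟦X⟧) * ∑ j, (A' j : ℤ⟦X⟧) * e j := by
        rw [Finset.mul_sum]
        refine Finset.sum_congr rfl fun j _ => ?_
        rw [hA', Polynomial.coe_mul, Polynomial.coe_C, map_natCast, mul_assoc]
      rw [e1, X_pow_dvd_iff] at hs
      rw [X_pow_dvd_iff]
      intro n hn
      have := hs n hn
      rw [coeff_natCast_mul] at this
      exact (mul_eq_zero.mp this).resolve_left hp0

theorem reduction (r a : ℕ) : ∃ C : ℕ, ∀ (A : Fin (a * p ^ r) → Polynomial ℤ) (ν s : ℕ), A ≠ 0 →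
    (∀ b, (A b).natDegree ≤ ν) → X ^ s ∣ ∑ b, (A b : ℤ⟦X⟧) * f0 p ^ (b : ℕ) →
    ∃ A' : I p r × Fin a → Polynomial (ZMod p), (∃ j, A' j ≠ 0) ∧ (∀ j, (A' j).natDegree ≤ ν + C) ∧
      X ^ s ∣ ∑ j, (A' j : (ZMod p)⟦X⟧) * (bas p (gp p) r j.1 * gp p r ^ (j.2 : ℕ)) := by
  have hB : ∀ b : Fin (a * p ^ r), ∃ B : I p r × Fin a → Polynomial ℤ,
      f0 p ^ (b : ℕ) = ∑ ι, (B ι : ℤ⟦X⟧) * (bas p (g0 p) r ι.1 * g0 p r ^ (ι.2 : ℕ)) :=
    fun b => f0_pow_repr b.2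
  choose B hB using hB
  refine ⟨univ.sup fun x : Fin (a * p ^ r) × (I p r × Fin a) => (B x.1 x.2).natDegree, ?_⟩
  intro A ν s hA hν hs
  set e : I p r × Fin a → ℤ⟦X⟧ := fun ι => bas p (g0 p) r ι.1 * g0 p r ^ (ι.2 : ℕ) with he
  set A1 : I p r × Fin a → Polynomial ℤ := fun ι => ∑ b, A b * B b ι with hA1
  have e1 : ∑ b, (A b : ℤ⟦X⟧) * f0 p ^ (b : ℕ) = ∑ ι, (A1 ι : ℤ⟦X⟧) * e ι := by
    simp only [hB, Finset.mul_sum]
    rw [Finset.sum_comm]
    refine Finset.sum_congr rfl fun ι _ => ?_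
    rw [hA1, ← Polynomial.coeToPowerSeries.ringHom_apply, map_sum, Finset.sum_mul]
    refine Finset.sum_congr rfl fun b _ => ?_
    rw [map_mul, mul_assoc]; rfl
  have h1 : ∃ j, A1 j ≠ 0 := by
    by_contra hh
    push Not at hh
    apply hA
    apply f0_indep (p := p)
    rw [e1]; simp [hh]
  obtain ⟨j0, hj0⟩ := h1
  obtain ⟨A2, ⟨j, hj⟩, hD, hs2⟩ := divide_p (p := p) e
    (ν + univ.sup fun x : Fin (a * p ^ r) × (I p r × Fin a) => (B x.1 x.2).natDegree) s j0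
    (A1 j0).natDegree _ A1 rfl
    (Int.natAbs_ne_zero.mpr (Polynomial.leadingCoeff_ne_zero.mpr hj0)) (fun ι => by
      refine Polynomial.natDegree_sum_le_of_forall_le _ _ fun b _ =>
        Polynomial.natDegree_mul_le.trans (add_le_add (hν b) ?_)
      exact Finset.le_sup (f := fun x : Fin (a * p ^ r) × (I p r × Fin a) => (B x.1 x.2).natDegree)
        (mem_univ (b, ι))) (e1 ▸ hs)
  refine ⟨fun j => (A2 j).map (Int.castRingHom (ZMod p)), ⟨j, hj⟩,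
    fun j => Polynomial.natDegree_map_le.trans (hD j), ?_⟩
  have := map_dvd (red p) hs2
  rw [map_pow, red_X, map_sum] at this
  convert this using 2 with j
  rw [map_mul, he, map_mul, map_pow, bas_map, Polynomial.polynomial_map_coe]
  rfl

theorem multEst_top (hp100 : 100 ≤ p) (r : ℕ) : ∃ C, MultEst p (p * p ^ r) (p * p ^ r) C := by
  obtain ⟨C, hC⟩ := reduction (p := p) r p
  refine ⟨p ^ r * (p * C + 2 * p ^ (r + 1)), fun A ν s hA hν hs => ?_⟩
  obtain ⟨A', ⟨j, hj⟩, hD, hs'⟩ := hC A ν s hA hν hs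
  have hI := indep_all hp100 (r + 1)
  have e : ∑ j, (A' j : (ZMod p)⟦X⟧) * (bas p (gp p) r j.1 * gp p r ^ (j.2 : ℕ)) =
      ∑ n : I p (r + 1), (A' n : (ZMod p)⟦X⟧) * bas p (gp p) (r + 1) n := rfl
  rw [e] at hs'
  have := norm_bound hI (exists_FW_sum (r := r + 1) A' hD) (fun h => hj (hI A' h j)) hs'
  refine Nat.le_of_mul_le_mul_left (this.trans (le_of_eq ?_)) hp.out.pos
  ring

theorem multEst_three (hp100 : 100 ≤ p) {r : ℕ} (hr : r ≠ 0) :
    ∃ C, MultEst p (3 * p ^ r) (3240 * p ^ r) C := by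
  obtain ⟨C, hC⟩ := reduction (p := p) r 3
  refine ⟨3240 * p ^ r * (C + 2 * p ^ r), fun A ν s hA hν hs => ?_⟩
  obtain ⟨A', ⟨j, hj⟩, hD, hs'⟩ := hC A ν s hA hν hs
  have hI := indep_all hp100 r
  set α : Fin 3 → (ZMod p)⟦X⟧ := fun i => ∑ n, (A' (n, i) : (ZMod p)⟦X⟧) * bas p (gp p) r n with hα
  have e : ∑ j, (A' j : (ZMod p)⟦X⟧) * (bas p (gp p) r j.1 * gp p r ^ (j.2 : ℕ)) =
      α 0 + α 1 * gp p r + α 2 * gp p r ^ 2 := by
    rw [Fintype.sum_prod_type_right, Fin.sum_univ_three]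
    simp only [hα, Finset.sum_mul, mul_assoc]
    simp
  rw [e] at hs'
  have hF : ∀ i, FW p r (p * (ν + C) + p ^ r : ℕ) (α i) := fun i =>
    exists_FW_sum (fun n => A' (n, i)) fun n => hD _
  have hne : α 0 ≠ 0 ∨ α 1 ≠ 0 ∨ α 2 ≠ 0 := by
    have : α j.2 ≠ 0 := fun h => hj (hI _ h j.1)
    generalize j.2 = i at this
    fin_cases i
    · exact Or.inl this
    · exact Or.inr (Or.inl this)
    · exact Or.inr (Or.inr this)
  have := claim_quad hp100 hr (hF 0) (hF 1) (hF 2) hne hs'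
  refine Nat.le_of_mul_le_mul_left (this.trans ?_) hp.out.pos
  have h1 : p ^ r ≤ p * p ^ r := Nat.le_mul_of_pos_left _ hp.out.pos
  have h2 := Nat.mul_le_mul_left (3240 * p ^ r * 2) h1
  nlinarith

end Pool.Agent.MP_6428c8_nt.H77
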