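import Pool.Agent.MP_6428c8_nt.H77.DetLem

set_option autoImplicit false

namespace Pool.Agent.MP_6428c8_nt.H77

open Finset Polynomial

/-- a basis of the module of Pade approximants of order `Q`, with row degrees summing to `S`. -/
def PadeSys (F : PowerSeries ℤ) (M Q S : ℕ) : Prop :=
  ∃ (T : Matrix (Fin (M + 1)) (Fin (M + 1)) ℤ[X]) (L : Fin (M + 1) → ℕ) (c : ℤ),
    c ≠ 0 ∧ T.det = C c * X ^ Q ∧ (∀ i j, (T i j).natDegree ≤ L i) ∧ ∑ i, L i = S ∧
      ∀ i, PowerSeries.X ^ Q ∣ ∑ b, (T i b : PowerSeries ℤ) * F ^ (b : ℕ)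

theorem pade_init (F : PowerSeries ℤ) (M Q : ℕ) : ∃ S, PadeSys F M Q S := by
  classical
  set T : Matrix (Fin (M + 1)) (Fin (M + 1)) ℤ[X] := Matrix.of fun i j =>
    if j = 0 then (if i = 0 then X ^ Q else -PowerSeries.trunc Q (F ^ (i : ℕ)))
    else (if i = j then 1 else 0) with hT
  refine ⟨_, T, fun i => univ.sup fun j => (T i j).natDegree, 1, one_ne_zero, ?_,
    fun i j => Finset.le_sup (f := fun j => (T i j).natDegree) (mem_univ j), rfl, fun i => ?_⟩
  · rw [Matrix.det_of_isLowerTriangular]
    · rw [Fin.prod_univ_succ]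
      simp [hT]
    · intro i j hij
      have h1 : i < j := hij
      have h2 : j ≠ 0 := fun h => by rw [h] at h1; exact absurd h1 (by simp)
      simp [hT, h2, h1.ne]
  · rw [Fin.sum_univ_succ]
    by_cases hi : i = 0
    · subst hi
      have : ∀ b : Fin M, T 0 b.succ = 0 := fun b => by
        simp [hT, Fin.succ_ne_zero, (Fin.succ_ne_zero b).symm]
      simp only [this]
      simp [hT]
    · obtain ⟨i', rfl⟩ := Fin.exists_succ_eq.mpr hi
      rw [Finset.sum_eq_single i']
      · simp only [hT, Matrix.of_apply, if_true, Fin.succ_ne_zero, if_false, Fin.val_zero, pow_zero,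
          mul_one, Polynomial.coe_neg, Polynomial.coe_one, one_mul]
        rw [PowerSeries.X_pow_dvd_iff]
        intro m hm
        simp [PowerSeries.coeff_trunc, hm]
      · intro b _ hb
        simp [hT, Fin.succ_ne_zero, hb.symm]
      · simp

theorem pade (F : PowerSeries ℤ) (M Q : ℕ) : PadeSys F M Q Q := by
  classical
  have hex := pade_init F M Q
  obtain ⟨T, L, c, hc, hdet, hL, hS, hdiv⟩ := Nat.find_spec hex
  have htop := coeff_det_top T L hL
  by_cases hl : (Matrix.of fun i j => (T i j).coeff (L i)).det = 0
  · exfalso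
    obtain ⟨v, hv0, hv⟩ := Matrix.exists_vecMul_eq_zero_iff.mpr hl
    have hne : (univ.filter fun j => v j ≠ 0).Nonempty := by
      by_contra hh
      apply hv0
      ext j
      by_contra hj
      exact hh ⟨j, by simpa using hj⟩
    obtain ⟨i, hi, hmax⟩ := Finset.exists_max_image _ L hne
    have hvi : v i ≠ 0 := by simpa using hi
    have hmax' : ∀ j, v j ≠ 0 → L j ≤ L i := fun j hj => hmax j (by simpa using hj)
    set cc : Fin (M + 1) → ℤ[X] := fun j => C (v j) * X ^ (L i - L j) with hcc
    set ρ := ∑ j, cc j • T j with hρ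
    have hρb : ∀ b, ρ b = ∑ j, cc j * T j b := fun b => by simp [hρ]
    have hd' : (T.updateRow i ρ).det = C (v i * c) * X ^ Q := by
      rw [hρ, Matrix.det_updateRow_sum, hdet, hcc]
      simp [mul_assoc]
    have hdeg : ∀ b, (ρ b).natDegree ≤ L i := by
      intro b
      rw [hρb]
      refine natDegree_sum_le_of_forall_le _ _ fun j _ => ?_
      by_cases hj : v j = 0
      · simp [hcc, hj]
      · have := hmax' j hj
        refine natDegree_mul_le.trans ((add_le_add ((natDegree_C_mul_le _ _).trans
          (natDegree_X_pow_le _)) (hL j b)).trans (by omega))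
    have hco : ∀ b, (ρ b).coeff (L i) = 0 := by
      intro b
      rw [hρb, finsetSum_coeff]
      have h0 : ∑ j, v j * (T j b).coeff (L j) = 0 := congrFun hv b
      rw [← h0]
      refine Finset.sum_congr rfl fun j _ => ?_
      by_cases hj : v j = 0
      · simp [hcc, hj]
      · have := hmax' j hj
        rw [hcc, mul_assoc, coeff_C_mul, coeff_X_pow_mul', if_pos (by omega)]
        congr 2; omega
    by_cases hLi : L i = 0
    · have hρ0 : ∀ b, ρ b = 0 := fun b => by
        have h1 := hdeg b
        have h2 := hco b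
        rw [hLi] at h1 h2
        rw [eq_C_of_natDegree_le_zero h1, h2, C_0]
      have := Matrix.det_eq_zero_of_row_eq_zero (A := T.updateRow i ρ) i (fun b => by simp [hρ0])
      rw [hd'] at this
      exact mul_ne_zero (C_ne_zero.mpr (mul_ne_zero hvi hc)) (pow_ne_zero _ X_ne_zero) this
    · have hlt : ∑ j, Function.update L i (L i - 1) j < Nat.find hex := by
        rw [← hS]
        refine Finset.sum_lt_sum (fun j _ => ?_) ⟨i, mem_univ _, by simp; omega⟩
        by_cases hj : j = i
        · subst hj; simp
        · simp [hj]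
      refine Nat.find_min hex hlt ⟨T.updateRow i ρ, Function.update L i (L i - 1), v i * c,
        mul_ne_zero hvi hc, hd', fun j b => ?_, rfl, fun j => ?_⟩
      · by_cases hj : j = i
        · subst hj
          simp only [Matrix.updateRow_self, Function.update_self]
          exact natDegree_le_pred (hdeg b) (hco b)
        · simp [hj, hL]
      · by_cases hj : j = i
        · subst hj
          simp only [Matrix.updateRow_self, hρb]
          have : ∑ b : Fin (M + 1), ((∑ l, cc l * T l b : ℤ[X]) : PowerSeries ℤ) * F ^ (b : ℕ) =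
              ∑ l, (cc l : PowerSeries ℤ) * ∑ b : Fin (M + 1), (T l b : PowerSeries ℤ) * F ^ (b : ℕ) := by
            simp only [Finset.mul_sum]
            rw [Finset.sum_comm]
            refine Finset.sum_congr rfl fun b _ => ?_
            rw [← Polynomial.coeToPowerSeries.ringHom_apply, map_sum, Finset.sum_mul]
            refine Finset.sum_congr rfl fun l _ => ?_
            rw [map_mul, mul_assoc]; rfl
          rw [this]
          exact Finset.dvd_sum fun l _ => (hdiv l).mul_left _
        · simpa [hj] using hdiv j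
  · rw [← htop, hdet, coeff_C_mul, coeff_X_pow] at hl
    have : ∑ i, L i = Q := by
      by_contra h; simp [h] at hl
    exact ⟨T, L, c, hc, hdet, hL, this, hdiv⟩

end Pool.Agent.MP_6428c8_nt.H77
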