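import Pool.Agent.MP_6428c8_nt.H77.Filt

set_option autoImplicit false

namespace Pool.Agent.MP_6428c8_nt.H77

open Finset PowerSeries

/-! ### The operator `θ = z d/dz` -/

noncomputable def th (R : Type*) [CommRing R] : Derivation R R⟦X⟧ R⟦X⟧ :=
  (X : R⟦X⟧) • PowerSeries.derivative R

section th
variable {R : Type*} [CommRing R]

theorem th_apply (h : R⟦X⟧) : th R h = X * PowerSeries.derivative R h := by
  simp [th]

theorem coeff_th (h : R⟦X⟧) (n : ℕ) : coeff n (th R h) = n * coeff n h := by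
  rw [th_apply]
  cases n with
  | zero => simp
  | succ n => rw [coeff_succ_X_mul, coeff_derivative]; push_cast; ring

theorem th_mul (a b : R⟦X⟧) : th R (a * b) = a * th R b + b * th R a := by
  rw [Derivation.leibniz]; simp [smul_eq_mul]

theorem th_X : th R (X : R⟦X⟧) = X := by simp [th_apply]

theorem th_pow_succ (a : R⟦X⟧) (n : ℕ) : th R (a ^ (n + 1)) = (n + 1) * a ^ n * th R a := by
  rw [Derivation.leibniz_pow]; simp [smul_eq_mul]; ring

theorem th_pow (a : R⟦X⟧) (n : ℕ) : th R (a ^ n) = n * (a ^ (n - 1) * th R a) := by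
  rw [Derivation.leibniz_pow]; simp [smul_eq_mul]

theorem coeff_natCast_mul (c : ℕ) (a : R⟦X⟧) (n : ℕ) :
    coeff n ((c : R⟦X⟧) * a) = c * coeff n a := by
  rw [← nsmul_eq_mul, map_nsmul, nsmul_eq_mul]

theorem th_natCast_mul (c : ℕ) (a : R⟦X⟧) : th R ((c : R⟦X⟧) * a) = c * th R a := by
  rw [th_mul, Derivation.map_natCast]; simp

theorem th_dvd {s : ℕ} {a : R⟦X⟧} (h : X ^ s ∣ a) : X ^ s ∣ th R a := by
  rw [X_pow_dvd_iff] at h ⊢
  intro m hm
  rw [coeff_th, h m hm, mul_zero]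

theorem th_map {S : Type*} [CommRing S] (π : R →+* S) (a : R⟦X⟧) :
    PowerSeries.map π (th R a) = th S (PowerSeries.map π a) := by
  ext n
  simp [coeff_th]

theorem th_expand (p : ℕ) (hp : p ≠ 0) (a : R⟦X⟧) :
    th R (expand p hp a) = p * expand p hp (th R a) := by
  ext n
  rw [coeff_th, coeff_natCast_mul, coeff_expand, coeff_expand]
  split_ifs with h
  · obtain ⟨m, rfl⟩ := h
    rw [Nat.mul_div_cancel_left _ (Nat.pos_of_ne_zero hp), coeff_th]
    push_cast; ring
  · simp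

end th

/-! ### The index sets and the standard monomials -/

def I (p : ℕ) : ℕ → Type
  | 0 => Unit
  | k + 1 => I p k × Fin p

instance fintypeI (p : ℕ) : (k : ℕ) → Fintype (I p k)
  | 0 => inferInstanceAs (Fintype Unit)
  | k + 1 => @instFintypeProd _ _ (fintypeI p k) _

noncomputable instance decEqI (p k : ℕ) : DecidableEq (I p k) := Classical.decEq _

theorem card_I (p : ℕ) : ∀ k, Fintype.card (I p k) = p ^ k
  | 0 => rfl
  | k + 1 => by
    have : Fintype.card (I p (k + 1)) = Fintype.card (I p k × Fin p) := rfl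
    rw [this, Fintype.card_prod, card_I p k, Fintype.card_fin, pow_succ]

def idx (p : ℕ) : (k : ℕ) → I p k → ℕ
  | 0, _ => 0
  | k + 1, n => idx p k n.1 + n.2 * p ^ k

def bas {A : Type*} [CommRing A] (p : ℕ) (h : ℕ → A) : (k : ℕ) → I p k → A
  | 0, _ => 1
  | k + 1, n => bas p h k n.1 * h k ^ (n.2 : ℕ)

def zeroI (p : ℕ) (hp : 0 < p) : (k : ℕ) → I p k
  | 0 => ()
  | k + 1 => (zeroI p hp k, ⟨0, hp⟩)

theorem idx_zeroI (p : ℕ) (hp : 0 < p) : ∀ k, idx p k (zeroI p hp k) = 0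
  | 0 => rfl
  | k + 1 => by simp [idx, zeroI, idx_zeroI p hp k]

theorem bas_zeroI {A : Type*} [CommRing A] (p : ℕ) (hp : 0 < p) (h : ℕ → A) :
    ∀ k, bas p h k (zeroI p hp k) = 1
  | 0 => rfl
  | k + 1 => by simp [bas, zeroI, bas_zeroI p hp h k]

theorem idx_lt (p : ℕ) : ∀ (k : ℕ) (n : I p k), idx p k n < p ^ k
  | 0, _ => by simp [idx]
  | k + 1, n => by
    have h1 := idx_lt p k n.1
    have h2 : (n.2 : ℕ) + 1 ≤ p := n.2.2
    have h3 : ((n.2 : ℕ) + 1) * p ^ k ≤ p * p ^ k := Nat.mul_le_mul_right _ h2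
    simp only [idx]
    rw [pow_succ]; nlinarith

theorem bas_map {A B : Type*} [CommRing A] [CommRing B] (π : A →+* B) (p : ℕ) (h : ℕ → A) :
    ∀ (k : ℕ) (n : I p k), π (bas p h k n) = bas p (fun j => π (h j)) k n
  | 0, _ => by simp [bas]
  | k + 1, n => by simp [bas, bas_map π p h k n.1]

theorem bas_mem {A : Type*} [CommRing A] {p : ℕ} {z : A} {wz : ℤ} {h h' : ℕ → A} {K : ℕ} :
    ∀ (k : ℕ), (∀ j < k, InF p z wz h' K ((p : ℤ) ^ j) (h j)) →
      ∀ n : I p k, InF p z wz h' K (idx p k n) (bas p h k n)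
  | 0, _, _ => by simpa [bas, idx] using InF.one le_rfl
  | k + 1, H, n => by
    have h1 := bas_mem k (fun j hj => H j (by omega)) n.1
    have h2 := (H k (by omega)).pow n.2
    simp only [bas, idx]
    exact InF.mul' h1 h2 (by push_cast; linarith)

/-! ### The series `f` and its `δ`-tower -/

variable (p : ℕ) [hp : Fact p.Prime]

noncomputable def phi : ℤ⟦X⟧ →+* ℤ⟦X⟧ := (expand (R := ℤ) p hp.out.ne_zero).toRingHom

theorem phi_apply (a : ℤ⟦X⟧) : phi p a = expand p hp.out.ne_zero a := rfl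

noncomputable def red : ℤ⟦X⟧ →+* (ZMod p)⟦X⟧ := PowerSeries.map (Int.castRingHom (ZMod p))

theorem frob (a : (ZMod p)⟦X⟧) : a ^ p = expand p hp.out.ne_zero a := by
  have := MvPowerSeries.map_frobenius_expand (σ := Unit) (R := ZMod p) p hp.out.ne_zero (f := a)
  rw [ZMod.frobenius_zmod, MvPowerSeries.map_id] at this
  exact this.symm

theorem red_phi (a : ℤ⟦X⟧) : red p (phi p a) = red p a ^ p := by
  rw [frob, phi_apply, red, map_expand]

theorem red_eq_zero_iff (a : ℤ⟦X⟧) : red p a = 0 ↔ ∃ y, a = p * y := by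
  constructor
  · intro h
    refine ⟨PowerSeries.mk fun n => coeff n a / p, ?_⟩
    ext n
    have h1 : ((coeff n a : ℤ) : ZMod p) = 0 := by
      have := congrArg (coeff n) h
      simpa [red] using this
    rw [ZMod.intCast_zmod_eq_zero_iff_dvd] at h1
    rw [← nsmul_eq_mul, map_nsmul, coeff_mk, nsmul_eq_mul, Int.mul_ediv_cancel' h1]
  · rintro ⟨y, rfl⟩
    ext n
    rw [← nsmul_eq_mul, map_nsmul, map_nsmul]
    simp

theorem p_reg (a : ℤ⟦X⟧) (h : (p : ℤ⟦X⟧) * a = 0) : a = 0 := by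
  ext n
  have := congrArg (coeff n) h
  rw [← nsmul_eq_mul, map_nsmul] at this
  simpa [hp.out.ne_zero] using this

theorem exists_delta (a : ℤ⟦X⟧) : ∃ y, phi p a = a ^ p + p * y := by
  obtain ⟨y, hy⟩ := (red_eq_zero_iff p (phi p a - a ^ p)).mp (by simp [red_phi])
  exact ⟨y, by linear_combination hy⟩

open Classical in
/-- `f = ∑ z ^ (p ^ j)` -/
noncomputable def f0 : ℤ⟦X⟧ := PowerSeries.mk fun n => if ∃ j, n = p ^ j then 1 else 0

theorem f0_eq : f0 p = X + phi p (f0 p) := by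
  ext n
  have h1 := hp.out.one_lt
  rw [map_add, phi_apply, coeff_expand, coeff_X]
  simp only [f0, coeff_mk]
  by_cases hn : n = 1
  · subst hn
    have : ¬ p ∣ 1 := by rw [Nat.dvd_one]; omega
    rw [if_pos ⟨0, by simp⟩, if_pos rfl, if_neg this]; simp
  · rw [if_neg hn, zero_add]
    by_cases hd : p ∣ n
    · obtain ⟨m, rfl⟩ := hd
      rw [if_pos (dvd_mul_right _ _), Nat.mul_div_cancel_left _ (by omega)]
      congr 1
      apply propext
      constructor
      · rintro ⟨j, hj⟩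
        cases j with
        | zero => simp at hj; omega
        | succ j => exact ⟨j, by rw [pow_succ'] at hj; exact Nat.eq_of_mul_eq_mul_left (by omega) hj⟩
      · rintro ⟨j, rfl⟩; exact ⟨j + 1, by rw [pow_succ']⟩
    · rw [if_neg hd, if_neg]
      rintro ⟨j, rfl⟩
      cases j with
      | zero => simp at hn
      | succ j => exact hd (dvd_pow_self _ (by omega))

noncomputable def g0 : ℕ → ℤ⟦X⟧
  | 0 => f0 p
  | k + 1 => Classical.choose (exists_delta p (g0 k))

theorem phi_g0 (k : ℕ) : phi p (g0 p k) = g0 p k ^ p + p * g0 p (k + 1) :=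
  Classical.choose_spec (exists_delta p (g0 p k))

theorem phi_X : phi p X = X ^ p := by rw [phi_apply, expand_X]

theorem phi_phi_g0 (k : ℕ) :
    phi p (phi p (g0 p k)) = phi p (g0 p k) ^ p + p * phi p (g0 p (k + 1)) := by
  conv_lhs => rw [phi_g0]
  simp

theorem c_mem_W (k : ℕ) :
    InF p X (p : ℤ) (g0 p) k ((p : ℤ) ^ (k + 1)) (phi p (g0 p k) - g0 p k) := by
  rw [pow_succ]
  refine InF.tower_diff hp.out (p_reg p) (phi p) (phi_X p) (phi_g0 p) (fun j => phi p (g0 p j))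
    (phi_phi_g0 p) (by exact_mod_cast hp.out.one_lt.le) ?_ k
  have : phi p (g0 p 0) - g0 p 0 = -X := by
    show phi p (f0 p) - f0 p = -X
    linear_combination -(f0_eq p)
  rw [this]; exact InF.genz.neg

theorem c_mem_idx (k : ℕ) :
    InF p X 0 (g0 p) k ((p : ℤ) ^ k) (phi p (g0 p k) - g0 p k) := by
  have := InF.tower_diff (wz := 0) (w0 := 1) hp.out (p_reg p) (phi p) (phi_X p) (phi_g0 p)
    (fun j => phi p (g0 p j)) (phi_phi_g0 p) le_rfl ?_ k
  · simpa using this
  have : phi p (g0 p 0) - g0 p 0 = -X := by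
    show phi p (f0 p) - f0 p = -X
    linear_combination -(f0_eq p)
  rw [this]; exact InF.genz.neg.mono (by norm_num)

theorem c_mem_car (k : ℕ) :
    InF p X 1 (fun j => phi p (g0 p j)) k ((p : ℤ) ^ k) (g0 p k - phi p (g0 p k)) := by
  have := InF.tower_diff (wz := 1) (w0 := 1) hp.out (p_reg p) (phi p) (phi_X p) (phi_phi_g0 p)
    (g0 p) (phi_g0 p) le_rfl ?_ k
  · simpa using this
  have : g0 p 0 - phi p (g0 p 0) = X := by
    show f0 p - phi p (f0 p) = X
    linear_combination (f0_eq p)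
  rw [this]; exact InF.genz

theorem th_phi (a : ℤ⟦X⟧) : th ℤ (phi p a) = p * phi p (th ℤ a) := th_expand _ _ _

theorem th_g0_zero : th ℤ (g0 p 0) = X + (p : ℤ⟦X⟧) * phi p (th ℤ (g0 p 0)) := by
  show th ℤ (f0 p) = X + (p : ℤ⟦X⟧) * phi p (th ℤ (f0 p))
  conv_lhs => rw [f0_eq]
  rw [map_add, th_X, th_phi]

theorem th_g0_succ (k : ℕ) :
    th ℤ (g0 p (k + 1)) = phi p (th ℤ (g0 p k)) - g0 p k ^ (p - 1) * th ℤ (g0 p k) := by
  have h := congrArg (th ℤ) (phi_g0 p k)
  rw [th_phi, map_add, th_natCast_mul, th_pow] at h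
  rw [← sub_eq_zero]
  apply p_reg p
  linear_combination -h

end Pool.Agent.MP_6428c8_nt.H77
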