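import Pool.Agent.MP_6428c8_nt.H77.Tower0

set_option autoImplicit false

namespace Pool.Agent.MP_6428c8_nt.H77

open Finset PowerSeries

variable (p : ℕ) [hp : Fact p.Prime]

/-- the tower in characteristic `p`. -/
noncomputable def gp (j : ℕ) : (ZMod p)⟦X⟧ := red p (g0 p j)

/-- weighted filtration, `z` of weight `p`. -/
abbrev FW (k : ℕ) (w : ℤ) (x : (ZMod p)⟦X⟧) : Prop := InF p X (p : ℤ) (gp p) k w x

/-- filtration adapted to the Cartier operators. -/
abbrev FC (k : ℕ) (w : ℤ) (x : (ZMod p)⟦X⟧) : Prop := InF p X 1 (fun j => gp p j ^ p) k w x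

variable {p}

theorem red_X : red p X = X := by simp [red]

theorem p_eq_zero : (p : (ZMod p)⟦X⟧) = 0 := by
  rw [← map_natCast (C (R := ZMod p)), ZMod.natCast_self, map_zero]

instance charP_ps : CharP (ZMod p)⟦X⟧ p :=
  charP_of_injective_ringHom (f := C (R := ZMod p)) (C_injective) p

theorem cp_mem (k : ℕ) : FW p k ((p : ℤ) ^ (k + 1)) (gp p k ^ p - gp p k) := by
  have := (c_mem_W p k).map (red p)
  rw [red_X, map_sub, red_phi] at this
  exact this

theorem cc_mem (k : ℕ) : FC p k ((p : ℤ) ^ k) (gp p k - gp p k ^ p) := by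
  have := (c_mem_car p k).map (red p)
  simp only [red_X, map_sub, red_phi] at this
  exact this

theorem gp_mem_FC {j r : ℕ} (hj : j < r) : FC p r ((p : ℤ) ^ j) (gp p j) := by
  have := InF.add ((cc_mem (p := p) j).level hj.le)
    (InF.gen (p := p) (z := X) (wz := 1) (h := fun j => gp p j ^ p) hj)
  simpa using this

theorem th_gp_zero : th (ZMod p) (gp p 0) = X := by
  have := congrArg (red p) (th_g0_zero p)
  rw [map_add, map_mul, map_natCast, p_eq_zero, zero_mul, add_zero, red_X, red, th_map] at this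
  exact this

theorem th_gp_succ (k : ℕ) : th (ZMod p) (gp p (k + 1)) =
    th (ZMod p) (gp p k) ^ p - gp p k ^ (p - 1) * th (ZMod p) (gp p k) := by
  have := congrArg (red p) (th_g0_succ p k)
  rw [map_sub, red_phi, map_mul, map_pow] at this
  simp only [red, th_map] at this
  exact this

theorem mu_mem (k : ℕ) : FW p k (2 * (p : ℤ) ^ k) (th (ZMod p) (gp p k) - X ^ (p ^ k)) := by
  induction k with
  | zero => rw [th_gp_zero]; simpa using InF.zero _
  | succ k ih =>
    set μ := th (ZMod p) (gp p k) - X ^ (p ^ k) with hμ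
    have e : th (ZMod p) (gp p k) = X ^ (p ^ k) + μ := by rw [hμ]; ring
    have hp2 : (2 : ℤ) ≤ p := by exact_mod_cast hp.out.two_le
    have hpk : (0 : ℤ) < (p : ℤ) ^ k := by positivity
    have e2 : th (ZMod p) (gp p (k + 1)) - X ^ (p ^ (k + 1)) =
        μ ^ p - (gp p k ^ (p - 1) * X ^ (p ^ k) + gp p k ^ (p - 1) * μ) := by
      rw [th_gp_succ, e, add_pow_char, ← pow_mul, ← pow_succ]; ring
    rw [e2]
    have ih' := ih.level (Nat.le_succ k)
    have hg := (InF.gen (p := p) (z := X) (wz := (p : ℤ)) (h := gp p) (Nat.lt_succ_self k)).pow (p - 1)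
    rw [Nat.cast_sub hp.out.one_le] at hg
    have hX := (InF.genz (p := p) (z := X) (wz := (p : ℤ)) (h := gp p) (k := k + 1)).pow (p ^ k)
    push_cast at hX hg
    refine InF.sub ((ih'.pow p).mono ?_) (InF.add (InF.mul' hg hX ?_) (InF.mul' hg ih' ?_))
    all_goals rw [pow_succ]; nlinarith

theorem tau_mem (k : ℕ) : FW p k ((p : ℤ) ^ (k + 1)) (th (ZMod p) (gp p k)) := by
  have hp2 : (2 : ℤ) ≤ p := by exact_mod_cast hp.out.two_le
  have hpk : (0 : ℤ) < (p : ℤ) ^ k := by positivity
  have hX := (InF.genz (p := p) (z := X) (wz := (p : ℤ)) (h := gp p) (k := k)).pow (p ^ k)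
  push_cast at hX
  have := InF.add ((mu_mem (p := p) k).mono (w' := (p : ℤ) ^ (k + 1)) (by rw [pow_succ]; nlinarith))
    (hX.mono (by rw [pow_succ]))
  simpa using this

theorem th_mem {r : ℕ} {w : ℤ} {x : (ZMod p)⟦X⟧} (hx : FW p r w x) :
    FW p r (w + (p : ℤ) ^ r) (th (ZMod p) x) := by
  have hq : (0 : ℤ) < (p : ℤ) ^ r := by have := hp.out.pos; positivity
  induction hx with
  | zero w => rw [map_zero]; exact InF.zero _
  | const c w hw => rw [Derivation.map_intCast]; exact InF.zero _
  | add _ _ h1 h2 => rw [map_add]; exact InF.add h1 h2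
  | mulz hx h1 ih =>
    rw [th_mul, th_X, mul_comm _ X]
    exact InF.add (InF.mulz ih (by linarith)) (InF.mulz hx (by linarith))
  | @mulh w w' x j hj hx h1 ih =>
    rw [th_mul]
    refine InF.add (InF.mulh j hj ih (by linarith)) (InF.mul' hx ((tau_mem j).level hj.le) ?_)
    have h2 : (p : ℤ) ^ (j + 1) ≤ (p : ℤ) ^ r :=
      pow_le_pow_right₀ (by exact_mod_cast hp.out.one_le) hj
    have h3 : (0 : ℤ) ≤ (p : ℤ) ^ j := by positivity
    linarith

theorem std_step {k : ℕ} {w : ℤ} {x : (ZMod p)⟦X⟧} (hx : FW p (k + 1) w x) :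
    ∃ α : ℕ → (ZMod p)⟦X⟧, (∀ i : ℕ, FW p k (w - i * (p : ℤ) ^ k) (α i)) ∧
      x = ∑ i ∈ range p, α i * gp p k ^ i := by
  have hp2 := hp.out.two_le
  have hpk : (0 : ℤ) < (p : ℤ) ^ k := by have := hp.out.pos; positivity
  induction hx with
  | zero w => exact ⟨0, fun i => InF.zero _, by simp⟩
  | const c w hw =>
    refine ⟨fun i => if i = 0 then c else 0, fun i => ?_, ?_⟩
    · beta_reduce
      split_ifs with h
      · subst h; exact InF.const c _ (by simpa using hw)
      · exact InF.zero _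
    · rw [Finset.sum_eq_single 0]
      · simp
      · intro b _ hb; simp [hb]
      · intro h; exact absurd (mem_range.mpr (by omega)) h
  | add _ _ h1 h2 =>
    obtain ⟨α, hα, rfl⟩ := h1
    obtain ⟨β, hβ, rfl⟩ := h2
    exact ⟨α + β, fun i => InF.add (hα i) (hβ i), by simp [add_mul, Finset.sum_add_distrib]⟩
  | mulz _ h1 ih =>
    obtain ⟨α, hα, rfl⟩ := ih
    exact ⟨fun i => X * α i, fun i => InF.mulz (hα i) (by linarith), by
      simp [Finset.mul_sum, mul_assoc]⟩
  | @mulh w w' x j hj _ h1 ih =>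
    obtain ⟨α, hα, rfl⟩ := ih
    rcases Nat.lt_succ_iff_lt_or_eq.mp hj with hj | rfl
    · exact ⟨fun i => gp p j * α i, fun i => InF.mulh j hj (hα i) (by linarith), by
        simp [Finset.mul_sum, mul_assoc]⟩
    · obtain ⟨m, hm⟩ : ∃ m, p = m + 2 := ⟨p - 2, by omega⟩
      have hmz : (p : ℤ) = m + 2 := by exact_mod_cast hm
      refine ⟨fun i => (if i = 0 then α (m + 1) * (gp p j ^ p - gp p j) else α (i - 1)) +
        (if i = 1 then α (m + 1) else 0), fun i => InF.add ?_ ?_, ?_⟩
      · split_ifs with h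
        · subst h
          refine InF.mul' (hα (m + 1)) (cp_mem j) ?_
          rw [pow_succ]; push_cast; nlinarith
        · obtain ⟨i', rfl⟩ : ∃ i', i = i' + 1 := ⟨i - 1, by omega⟩
          refine (hα _).mono ?_
          simp only [Nat.add_sub_cancel]; push_cast; linarith
      · split_ifs with h
        · subst h
          refine (hα _).mono ?_
          have : (0 : ℤ) ≤ m := by positivity
          push_cast; nlinarith
        · exact InF.zero _
      · generalize gp p j = g
        have e0 : range p = range (m + 2) := by rw [← hm]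
        have e1 : ∑ i ∈ range p, α i * g ^ i =
            ∑ i ∈ range (m + 1), α i * g ^ i + α (m + 1) * g ^ (m + 1) := by
          rw [e0, Finset.sum_range_succ]
        have e2 : ∑ i ∈ range p, ((if i = 0 then α (m + 1) * (g ^ p - g) else α (i - 1)) +
            (if i = 1 then α (m + 1) else 0)) * g ^ i =
            ∑ i ∈ range (m + 1), α i * g ^ (i + 1) + α (m + 1) * (g ^ p - g) + α (m + 1) * g := by
          simp only [add_mul, Finset.sum_add_distrib]
          congr 1
          · generalize g ^ p = G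
            rw [e0, Finset.sum_range_succ']
            simp
          · rw [Finset.sum_eq_single 1]
            · simp
            · intro b _ hb; simp [hb]
            · intro h; exact absurd (mem_range.mpr (by omega)) h
        rw [e2, e1, mul_add, Finset.mul_sum]
        have e3 : g ^ p = g ^ (m + 2) := by rw [← hm]
        rw [e3]
        have e4 : ∑ i ∈ range (m + 1), g * (α i * g ^ i) = ∑ i ∈ range (m + 1), α i * g ^ (i + 1) :=
          Finset.sum_congr rfl fun i _ => by ring
        rw [e4]; ring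

theorem span_zero {w : ℤ} {x : (ZMod p)⟦X⟧} (hx : FW p 0 w x) :
    ∃ A : Polynomial (ZMod p), (A = 0 ∨ (A.natDegree : ℤ) * p ≤ w) ∧ x = A := by
  induction hx with
  | zero w => exact ⟨0, Or.inl rfl, by simp⟩
  | const c w hw =>
    refine ⟨Polynomial.C (c : ZMod p), Or.inr (by simpa using hw), ?_⟩
    rw [Polynomial.coe_C, map_intCast]
  | add _ _ h1 h2 =>
    obtain ⟨A, hA, rfl⟩ := h1
    obtain ⟨B, hB, rfl⟩ := h2
    refine ⟨A + B, ?_, by simp⟩
    rcases hA with rfl | hA
    · simpa using hB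
    rcases hB with rfl | hB
    · right; simpa using hA
    right
    have h3 := Polynomial.natDegree_add_le A B
    have hp0 : (0 : ℤ) ≤ p := by positivity
    rcases le_total A.natDegree B.natDegree with h | h
    · rw [max_eq_right h] at h3
      have : ((A + B).natDegree : ℤ) ≤ B.natDegree := by exact_mod_cast h3
      nlinarith
    · rw [max_eq_left h] at h3
      have : ((A + B).natDegree : ℤ) ≤ A.natDegree := by exact_mod_cast h3
      nlinarith
  | mulz _ h1 ih =>
    obtain ⟨A, hA, rfl⟩ := ih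
    refine ⟨Polynomial.X * A, ?_, by simp⟩
    rcases hA with rfl | hA
    · simp
    · right
      have h3 : (Polynomial.X * A).natDegree ≤ A.natDegree + 1 := by
        refine Polynomial.natDegree_mul_le.trans ?_
        rw [Polynomial.natDegree_X]; omega
      have : ((Polynomial.X * A).natDegree : ℤ) ≤ A.natDegree + 1 := by exact_mod_cast h3
      have hp0 : (0 : ℤ) ≤ p := by positivity
      nlinarith
  | mulh j hj _ h1 ih => omega

theorem span_repr : ∀ (k : ℕ) {w : ℤ} (_ : 0 ≤ w) {x : (ZMod p)⟦X⟧} (_ : FW p k w x),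
    ∃ A : I p k → Polynomial (ZMod p), (∀ n, ((A n).natDegree : ℤ) * p ≤ w) ∧
      x = ∑ n, (A n : (ZMod p)⟦X⟧) * bas p (gp p) k n
  | 0, w, hw, x, hx => by
    obtain ⟨A, hA, rfl⟩ := span_zero hx
    refine ⟨fun _ => A, fun _ => ?_, ?_⟩
    · rcases hA with rfl | hA
      · simpa using hw
      · exact hA
    · show _ = ∑ n : Unit, (A : (ZMod p)⟦X⟧) * 1
      simp
  | k + 1, w, hw, x, hx => by
    obtain ⟨α, hα, rfl⟩ := std_step hx
    have hpk : (0 : ℤ) < (p : ℤ) ^ k := by have := hp.out.pos; positivity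
    have : ∀ i : ℕ, ∃ A : I p k → Polynomial (ZMod p), (∀ n, ((A n).natDegree : ℤ) * p ≤ w) ∧
        α i = ∑ n, (A n : (ZMod p)⟦X⟧) * bas p (gp p) k n := fun i =>
      span_repr k hw ((hα i).mono (by have : (0 : ℤ) ≤ i := by positivity
                                      nlinarith))
    choose A hA eA using this
    refine ⟨fun n => A n.2 n.1, fun n => hA _ _, ?_⟩
    show _ = ∑ n : I p k × Fin p, (A n.2 n.1 : (ZMod p)⟦X⟧) * (bas p (gp p) k n.1 * gp p k ^ (n.2 : ℕ))
    rw [Fintype.sum_prod_type_right, Finset.sum_range]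
    refine Finset.sum_congr rfl fun i _ => ?_
    rw [eA, Finset.sum_mul]
    exact Finset.sum_congr rfl fun n _ => by ring

theorem poly_mem {wz : ℤ} (hwz : 0 ≤ wz) {h : ℕ → (ZMod p)⟦X⟧} {k : ℕ} (A : Polynomial (ZMod p)) :
    InF p X wz h k (A.natDegree * wz) (A : (ZMod p)⟦X⟧) := by
  have e : (A : (ZMod p)⟦X⟧) =
      ∑ i ∈ range (A.natDegree + 1), (((A.coeff i).val : ℕ) : (ZMod p)⟦X⟧) * X ^ i := by
    conv_lhs => rw [A.as_sum_range_C_mul_X_pow]
    rw [← Polynomial.coeToPowerSeries.ringHom_apply, map_sum]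
    refine Finset.sum_congr rfl fun i _ => ?_
    rw [map_mul, map_pow, Polynomial.coeToPowerSeries.ringHom_apply,
      Polynomial.coeToPowerSeries.ringHom_apply, Polynomial.coe_C, Polynomial.coe_X,
      ← map_natCast (C (R := ZMod p)), ZMod.natCast_zmod_val]
  rw [e]
  refine InF.sum _ fun i hi => InF.natMul _ ((InF.genz.pow i).mono ?_)
  have : (i : ℤ) ≤ A.natDegree := by
    have := mem_range.mp hi
    exact_mod_cast (by omega : i ≤ A.natDegree)
  nlinarith

theorem bas_mem_FW {r : ℕ} (n : I p r) : FW p r ((p : ℤ) ^ r) (bas p (gp p) r n) := by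
  refine (bas_mem r (fun j hj => InF.gen hj) n).mono ?_
  exact_mod_cast (idx_lt p r n).le

theorem FC_of_FW {r H : ℕ} {x : (ZMod p)⟦X⟧} (hx : FW p r H x) :
    FC p r ((H / p : ℕ) + (p : ℤ) ^ r) x := by
  obtain ⟨A, hA, rfl⟩ := span_repr r (by positivity) hx
  refine InF.sum _ fun n _ => InF.mul' (poly_mem (by norm_num) (A n))
    (bas_mem r (fun j hj => gp_mem_FC hj) n) ?_
  have h1 : (A n).natDegree ≤ H / p := by
    rw [Nat.le_div_iff_mul_le hp.out.pos]; exact_mod_cast hA n
  have h2 : ((A n).natDegree : ℤ) ≤ (H / p : ℕ) := by exact_mod_cast h1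
  have h3 : (idx p r n : ℤ) ≤ (p : ℤ) ^ r := by exact_mod_cast (idx_lt p r n).le
  linarith

theorem cartier {r : ℕ} {w : ℤ} {x : (ZMod p)⟦X⟧} (hx : FC p r w x) :
    ∃ y : ℕ → (ZMod p)⟦X⟧, (∀ t : ℕ, FW p r (w - t) (y t)) ∧
      x = ∑ t ∈ range p, X ^ t * y t ^ p := by
  have hp2 := hp.out.two_le
  induction hx with
  | zero w => exact ⟨0, fun i => InF.zero _, by simp [hp.out.ne_zero]⟩
  | const c w hw =>
    refine ⟨fun i => if i = 0 then c else 0, fun i => ?_, ?_⟩
    · beta_reduce
      split_ifs with h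
      · subst h; exact InF.const c _ (by simpa using hw)
      · exact InF.zero _
    · rw [Finset.sum_eq_single 0]
      · simp only [pow_zero, if_true, one_mul]
        rw [← map_intCast (C (R := ZMod p)), ← map_pow, ZMod.pow_card]
      · intro b _ hb; simp [hb, hp.out.ne_zero]
      · intro h; exact absurd (mem_range.mpr (by omega)) h
  | add _ _ h1 h2 =>
    obtain ⟨α, hα, rfl⟩ := h1
    obtain ⟨β, hβ, rfl⟩ := h2
    exact ⟨α + β, fun i => InF.add (hα i) (hβ i), by
      simp [add_pow_char, mul_add, Finset.sum_add_distrib]⟩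
  | @mulz w w' x _ h1 ih =>
    obtain ⟨α, hα, rfl⟩ := ih
    obtain ⟨m, hm⟩ : ∃ m, p = m + 1 := ⟨p - 1, by omega⟩
    have hmz : (p : ℤ) = m + 1 := by exact_mod_cast hm
    refine ⟨fun i => if i = 0 then X * α m else α (i - 1), fun i => ?_, ?_⟩
    · beta_reduce
      split_ifs with h
      · subst h
        exact InF.mulz (hα m) (by push_cast; linarith)
      · obtain ⟨i', rfl⟩ : ∃ i', i = i' + 1 := ⟨i - 1, by omega⟩
        refine (hα _).mono ?_
        simp only [Nat.add_sub_cancel]; push_cast; linarith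
    · have e1 : ∀ F : ℕ → (ZMod p)⟦X⟧, ∑ t ∈ range p, F t = ∑ t ∈ range (m + 1), F t := by
        intro F; rw [← hm]
      rw [e1, e1, Finset.sum_range_succ, Finset.sum_range_succ', mul_add, Finset.mul_sum]
      congr 1
      · refine Finset.sum_congr rfl fun i _ => ?_
        simp only [Nat.add_eq_zero_iff, one_ne_zero, and_false, if_false, Nat.add_sub_cancel]
        ring
      · simp only [if_true, mul_pow]
        have : (X : (ZMod p)⟦X⟧) ^ p = X ^ (m + 1) := by rw [← hm]
        rw [this]; ring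
  | @mulh w w' x j hj _ h1 ih =>
    obtain ⟨α, hα, rfl⟩ := ih
    refine ⟨fun i => gp p j * α i, fun i => InF.mulh j hj (hα i) (by linarith), ?_⟩
    rw [Finset.mul_sum]
    exact Finset.sum_congr rfl fun i _ => by rw [mul_pow]; ring

theorem cartier_dvd {s : ℕ} {y : ℕ → (ZMod p)⟦X⟧}
    (h : X ^ s ∣ ∑ t ∈ range p, X ^ t * y t ^ p) {t : ℕ} (ht : t < p) : X ^ (s / p) ∣ y t := by
  rw [X_pow_dvd_iff] at h ⊢
  intro n hn
  have h1 : p * n + t < s := by
    have : (n + 1) * p ≤ s := (Nat.le_div_iff_mul_le hp.out.pos).mp hn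
    nlinarith
  have h2 := h _ h1
  rw [map_sum, Finset.sum_eq_single t] at h2
  · rwa [coeff_X_pow_mul, frob, coeff_expand_mul] at h2
  · intro b hb hbt
    have hb' := mem_range.mp hb
    rw [coeff_X_pow_mul', frob]
    split_ifs with hle
    · apply coeff_expand_of_not_dvd
      rintro ⟨c, hc⟩
      apply hbt
      have h3 : p * n + t = p * c + b := by omega
      have h4 := congrArg (· % p) h3
      simp only [Nat.mul_add_mod, Nat.mod_eq_of_lt ht, Nat.mod_eq_of_lt hb'] at h4
      exact h4.symm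
    · rfl
  · intro h; exact absurd (mem_range.mpr ht) h

end Pool.Agent.MP_6428c8_nt.H77
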