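import Pool.Agent.MP_6428c8_nt.H77.Anal
import Pool.Agent.MP_6428c8_nt.H77.Pade
import Pool.Agent.MP_6428c8_nt.H77.MultEst

set_option autoImplicit false

namespace Pool.Agent.MP_6428c8_nt.H77

open Finset Polynomial

variable {p : ℕ} [hp : Fact p.Prime]

theorem partialSum_eq (k : ℕ) : ∃ s : ℤ, ∑ j ∈ range k, (1 / 2 : ℝ) ^ (p ^ j) =
    (s : ℝ) / ((2 ^ (p ^ k) : ℤ) : ℝ) := by
  refine ⟨∑ j ∈ range k, 2 ^ (p ^ k - p ^ j), ?_⟩
  push_cast
  rw [Finset.sum_div]
  refine Finset.sum_congr rfl fun j hj => ?_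
  have : p ^ j ≤ p ^ k := Nat.pow_le_pow_right hp.out.pos (mem_range.mp hj).le
  obtain ⟨t, ht⟩ := Nat.exists_eq_add_of_le this
  rw [ht, Nat.add_sub_cancel_left, pow_add, one_div_pow]
  field_simp

theorem one_le_abs_det {n : Type*} [Fintype n] [DecidableEq n] (U : Matrix n n ℝ) (D : n → ℝ)
    (hD : ∀ i, 0 < D i) (h : ∀ i j, ∃ m : ℤ, (m : ℝ) = D i * U i j) (hU : U.det ≠ 0) :
    1 ≤ (∏ i, D i) * |U.det| := by
  choose V hV using h
  have e : ((Matrix.of V).det : ℝ) = (∏ i, D i) * U.det := by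
    rw [Int.cast_det, ← Matrix.det_diagonal, ← Matrix.det_mul]
    congr 1
    ext i j
    simp [hV]
  have hp0 : 0 < ∏ i, D i := Finset.prod_pos fun i _ => hD i
  have h0 : (Matrix.of V).det ≠ 0 := by
    intro h0
    rw [h0, Int.cast_zero] at e
    exact mul_ne_zero hp0.ne' hU e.symm
  have h1 : (1 : ℝ) ≤ |((Matrix.of V).det : ℝ)| := by exact_mod_cast Int.one_le_abs h0
  rwa [e, abs_mul, abs_of_pos hp0] at h1

theorem transfer_step {M κ C : ℕ} (hκ : 0 < κ) (hM : MultEst p (M + 1) κ C) (m : ℕ) :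
    ∃ c : ℝ, 0 < c ∧ ∀ (k : ℕ) (P : ℤ[X]) (H : ℝ), P ≠ 0 → P.natDegree ≤ M →
      (∀ i, |(P.coeff i : ℝ)| ≤ H) → c * H < 2 ^ (m * p ^ k) →
      H * (1 / 2) ^ ((κ * (m + M) + C) * p ^ k) < |aeval (FF p (1 / 2)) P| := by
  classical
  set Q := κ * (m + M) + C with hQ
  obtain ⟨T, L, c, hc, hdet, hL, hS, hdiv⟩ := pade (f0 p) M Q
  have hdet0 : T.det ≠ 0 := by
    rw [hdet]; exact mul_ne_zero (C_ne_zero.mpr hc) (pow_ne_zero _ X_ne_zero)
  have hLi : ∀ i, m + M ≤ L i := by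
    intro i
    have h1 : T i ≠ 0 := fun h =>
      hdet0 (Matrix.det_eq_zero_of_row_eq_zero i fun j => congrFun h j)
    have h2 := hM (T i) (L i) Q h1 (hL i) (hdiv i)
    exact Nat.le_of_mul_le_mul_left (by omega) hκ
  choose c1 hc1 b1 using fun i => small_value (p := p) (T i) (hdiv i)
  choose c2 hc2 b2 using fun (x : Fin (M + 1) × Fin (M + 1)) => poly_bound (T x.1 x.2)
  set c0 : ℝ := 1 + ∑ i, c1 i + ∑ x, c2 x + (M + 1) * 2 ^ (2 * M) with hc0
  have s1 : 0 ≤ ∑ i, c1 i := Finset.sum_nonneg fun i _ => hc1 i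
  have s2 : 0 ≤ ∑ x, c2 x := Finset.sum_nonneg fun i _ => hc2 i
  have s3 : (0 : ℝ) ≤ (M + 1) * 2 ^ (2 * M) := by positivity
  have k0 : 1 ≤ c0 := by linarith
  have k1 : ∀ i, c1 i ≤ c0 := fun i => by
    have := Finset.single_le_sum (f := c1) (fun i _ => hc1 i) (mem_univ i); linarith
  have k2 : ∀ x, c2 x ≤ c0 := fun x => by
    have := Finset.single_le_sum (f := c2) (fun i _ => hc2 i) (mem_univ x); linarith
  have k3 : (M + 1) * 2 ^ (2 * M) ≤ c0 := by linarith
  refine ⟨(M + 1).factorial * c0 ^ (M + 1), by positivity, ?_⟩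
  intro k P H hP0 hPd hH hcH
  by_contra hcon
  rw [not_lt] at hcon
  have hH0 : 0 ≤ H := (abs_nonneg _).trans (hH 0)
  set x : ℝ := (1 / 2) ^ (p ^ k) with hx
  set d : ℤ := 2 ^ (p ^ k) with hd
  have hd0 : (0 : ℝ) < d := by rw [hd]; positivity
  have hd0' : d ≠ 0 := by rw [hd]; positivity
  have hxd : x = ((1 : ℤ) : ℝ) / d := by rw [hx, hd]; push_cast; rw [one_div_pow]
  have hx0 : 0 < x := by positivity
  have hx1 : x ≤ 1 / 2 := pow_le_half (by norm_num) le_rfl k
  have hxQ : (1 / 2 : ℝ) ^ (Q * p ^ k) = x ^ Q := by rw [hx, ← pow_mul, mul_comm]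
  rw [hxQ] at hcon
  obtain ⟨s, hs⟩ := partialSum_eq (p := p) k
  set S : ℝ := ∑ j ∈ range k, (1 / 2 : ℝ) ^ (p ^ j) with hSd
  have hsp : FF p (1 / 2) = S + FF p x := FF_split (by norm_num) le_rfl k
  have hS1 : |S| ≤ 1 := by
    have h1 := FF_le (p := p) (x := 1 / 2) (by norm_num) le_rfl
    have h2 := FF_nonneg (p := p) hx0.le
    rw [abs_of_nonneg (by rw [hSd]; positivity)]; linarith
  set P' : ℝ[X] := P.map (Int.castRingHom ℝ) with hP'
  set π : Fin (M + 1) → ℝ := fun b => (taylor S P').coeff b with hπ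
  have hπe : ∀ b : Fin (M + 1), π b = aeval S (hasseDeriv b P) := by
    intro b
    rw [hπ]
    simp only [taylor_coeff]
    rw [aeval_def, eval₂_eq_eval_map]
    congr 1
    ext n
    simp [hasseDeriv_coeff, hP']
  have hP'0 : P' ≠ 0 := (Polynomial.map_ne_zero_iff (RingHom.injective_int _)).mpr hP0
  have hP'd : (taylor S P').natDegree ≤ M := by
    rw [natDegree_taylor]; exact natDegree_map_le.trans hPd
  have hπ0 : π ≠ 0 := by
    intro h
    have h1 := congrFun h ⟨(taylor S P').natDegree, Nat.lt_succ_of_le hP'd⟩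
    exact leadingCoeff_ne_zero.mpr ((taylor_eq_zero S P').not.mpr hP'0) h1
  have hπv : ∑ b : Fin (M + 1), π b * FF p x ^ (b : ℕ) = aeval (FF p (1 / 2)) P := by
    rw [hsp, add_comm S, aeval_def, eval₂_eq_eval_map]
    have : (algebraMap ℤ ℝ) = Int.castRingHom ℝ := rfl
    rw [this, ← hP', ← taylor_eval, eval_eq_sum_range' (Nat.lt_succ_of_le hP'd), Finset.sum_range]
  set TR : Matrix (Fin (M + 1)) (Fin (M + 1)) ℝ := T.map (aeval x) with hTR
  have hTRd : TR.det ≠ 0 := by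
    have : TR.det = aeval x T.det := by
      rw [hTR, AlgHom.map_det]; rfl
    rw [this, hdet]
    simp only [map_mul, map_pow, aeval_X, aeval_C]
    exact mul_ne_zero (by simpa using hc) (pow_ne_zero _ hx0.ne')
  have : ∃ i, (TR.updateRow i π).det ≠ 0 := by
    by_contra hh
    push Not at hh
    have h1 : TR.transpose.cramer π = 0 := by
      ext i; rw [Matrix.cramer_transpose_apply, hh]; rfl
    have h2 := Matrix.mulVec_cramer TR.transpose π
    rw [h1, Matrix.mulVec_zero, Matrix.det_transpose] at h2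
    exact hπ0 ((smul_eq_zero.mp h2.symm).resolve_left hTRd)
  obtain ⟨i, hi⟩ := this
  set U := TR.updateRow i π with hU
  -- lower bound
  set e : Fin (M + 1) → ℕ := Function.update L i M with he
  have low := one_le_abs_det U (fun j => (d : ℝ) ^ e j) (fun j => by positivity) (fun j b => by
    by_cases hj : j = i
    · subst hj
      simp only [hU, he, Matrix.updateRow_self, Function.update_self, hπe]
      rw [hs]
      exact scaled_int _ ((natDegree_hasseDeriv_le _ _).trans (by omega)) s d hd0'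
    · simp only [hU, he, Matrix.updateRow_ne hj, Function.update_of_ne hj, hTR, Matrix.map_apply]
      rw [hxd]
      exact scaled_int _ (hL j b) 1 d hd0') hi
  rw [Finset.prod_pow_eq_pow_sum] at low
  have hesum : ∑ j, e j + m ≤ Q := by
    have h1 := Finset.sum_update_of_mem (mem_univ i) L M
    have h2 := Finset.add_sum_erase univ L (mem_univ i)
    have h3 := hLi i
    rw [← he, sdiff_singleton_eq_erase] at h1
    omega
  -- upper bound
  have hcol := Matrix.det_updateCol_sum U 0 (fun b => FF p x ^ (b : ℕ))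
  simp only [Fin.val_zero, pow_zero, one_smul] at hcol
  have up := abs_det_le (U.updateCol 0 fun k => ∑ b : Fin (M + 1), FF p x ^ (b : ℕ) • U k b)
    (fun j => c0 * (if j = i then H else 1)) (fun b => if b = 0 then x ^ Q else 1) (fun j b => by
      by_cases hb : b = 0
      · subst hb
        rw [Matrix.updateCol_self, if_pos rfl]
        simp only [smul_eq_mul, mul_comm (FF p x ^ _)]
        by_cases hj : j = i
        · subst hj
          simp only [hU, Matrix.updateRow_self, hπv, if_true]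
          refine hcon.trans ?_
          have : 0 ≤ H * x ^ Q := by positivity
          nlinarith
        · simp only [hU, Matrix.updateRow_ne hj, hTR, Matrix.map_apply, if_neg hj, mul_one]
          exact (b1 j x hx0.le hx1).trans (mul_le_mul_of_nonneg_right (k1 j) (by positivity))
      · rw [Matrix.updateCol_ne hb, if_neg hb, mul_one]
        by_cases hj : j = i
        · subst hj
          simp only [hU, Matrix.updateRow_self, hπe, if_true]
          exact (hasse_bound P hPd hH b hS1 (Nat.lt_succ_iff.mp b.2)).trans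
            (mul_le_mul_of_nonneg_right k3 hH0)
        · simp only [hU, Matrix.updateRow_ne hj, hTR, Matrix.map_apply, if_neg hj, mul_one]
          exact (b2 (j, b) x (by rw [abs_of_pos hx0]; linarith)).trans (k2 _))
  rw [hcol, Finset.prod_mul_distrib, Finset.prod_const, Finset.prod_ite_eq', Finset.prod_ite_eq',
    if_pos (mem_univ _), if_pos (mem_univ _), card_univ, Fintype.card_fin] at up
  have hxd1 : x ^ Q * (d : ℝ) ^ Q = 1 := by
    rw [← mul_pow, hxd]; push_cast; rw [one_div_mul_cancel hd0.ne', one_pow]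
  have hd1 : (1 : ℝ) ≤ d := by rw [hd]; push_cast; exact one_le_pow₀ (by norm_num)
  have hdm : (2 : ℝ) ^ (m * p ^ k) = (d : ℝ) ^ m := by
    rw [hd]; push_cast; rw [← pow_mul, mul_comm]
  rw [hdm] at hcH
  have h5 : (d : ℝ) ^ (∑ j, e j) * (d : ℝ) ^ m ≤ (d : ℝ) ^ Q := by
    rw [← pow_add]; exact pow_le_pow_right₀ hd1 hesum
  have h6 : (d : ℝ) ^ m ≤ (d : ℝ) ^ Q * |U.det| := by
    calc (d : ℝ) ^ m = 1 * (d : ℝ) ^ m := (one_mul _).symm
      _ ≤ ((d : ℝ) ^ (∑ j, e j) * |U.det|) * (d : ℝ) ^ m := by gcongr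
      _ = ((d : ℝ) ^ (∑ j, e j) * (d : ℝ) ^ m) * |U.det| := by ring
      _ ≤ _ := by gcongr
  have h7 : (d : ℝ) ^ Q * |U.det| ≤ (M + 1).factorial * c0 ^ (M + 1) * H := by
    calc (d : ℝ) ^ Q * |U.det|
        ≤ (d : ℝ) ^ Q * ((M + 1).factorial * (c0 ^ (M + 1) * H * x ^ Q)) := by gcongr
      _ = (M + 1).factorial * c0 ^ (M + 1) * H * (x ^ Q * (d : ℝ) ^ Q) := by ring
      _ = _ := by rw [hxd1, mul_one]
  linarith

theorem choose_scale {m0 u : ℕ} (hm0 : 0 < m0) (hu : m0 ≤ u) :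
    ∃ k m : ℕ, m0 ≤ m ∧ m < m0 * p ∧ m * p ^ k ≤ u ∧ u < (m + 1) * p ^ k := by
  have h1 : u / m0 ≠ 0 := (Nat.div_pos hu hm0).ne'
  set k := Nat.log p (u / m0) with hk
  have h2 : p ^ k ≤ u / m0 := Nat.pow_log_le_self p h1
  have h3 : u / m0 < p ^ (k + 1) := Nat.lt_pow_succ_log_self hp.out.one_lt _
  have hq : 0 < p ^ k := pow_pos hp.out.pos k
  refine ⟨k, u / p ^ k, ?_, ?_, Nat.div_mul_le_self _ _, ?_⟩
  · rw [Nat.le_div_iff_mul_le hq, mul_comm]
    exact (Nat.le_div_iff_mul_le hm0).mp h2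
  · rw [Nat.div_lt_iff_lt_mul hq]
    rw [Nat.div_lt_iff_lt_mul hm0, pow_succ] at h3
    nlinarith
  · rw [mul_comm]; exact Nat.lt_mul_div_succ u hq

theorem transfer {M κ C : ℕ} (hκ : 0 < κ) (hM : MultEst p (M + 1) κ C) {w : ℝ}
    (hw : (κ : ℝ) - 1 < w) : ∃ c H0 : ℝ, 0 < c ∧ ∀ (P : ℤ[X]) (H : ℝ), P ≠ 0 → P.natDegree ≤ M →
      (∀ i, |(P.coeff i : ℝ)| ≤ H) → H0 ≤ H → c * H ^ (-w) < |aeval (FF p (1 / 2)) P| := by
  choose cm hcm hstep using transfer_step hκ hM
  obtain ⟨m0, hm0⟩ := exists_nat_gt ((κ * (1 + M) + C : ℝ) / (w + 1 - κ))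
  have hwκ : 0 < w + 1 - κ := by linarith
  have hm0pos : 0 < m0 := by
    have : (0 : ℝ) ≤ (κ * (1 + M) + C : ℝ) / (w + 1 - κ) := by positivity
    exact_mod_cast this.trans_lt hm0
  rw [div_lt_iff₀ hwκ] at hm0
  set c : ℝ := 1 + ∑ m ∈ range (m0 * p + 1), cm m with hc
  have hc1 : 1 ≤ c := by
    have : 0 ≤ ∑ m ∈ range (m0 * p + 1), cm m := Finset.sum_nonneg fun m _ => (hcm m).le
    linarith
  have hw1 : 0 < w + 1 := by
    have : (0 : ℝ) ≤ κ := by positivity
    linarith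
  refine ⟨c ^ (-(w + 1)), 2 ^ m0, by positivity, fun P H hP0 hPd hH hH0 => ?_⟩
  have hHpos : 0 < H := lt_of_lt_of_le (by positivity) hH0
  set Y := c * H with hY
  have hY0 : (2 : ℝ) ^ m0 ≤ Y := by nlinarith
  have hfl : 2 ^ m0 ≤ ⌊Y⌋₊ := Nat.le_floor (by exact_mod_cast hY0)
  have hfl0 : ⌊Y⌋₊ ≠ 0 := by have : 0 < 2 ^ m0 := by positivity
                             omega
  set u := Nat.log 2 ⌊Y⌋₊ with hu
  have hu0 : m0 ≤ u := Nat.le_log_of_pow_le (by norm_num) hfl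
  have hu1 : (2 : ℝ) ^ u ≤ Y := by
    have : 2 ^ u ≤ ⌊Y⌋₊ := Nat.pow_log_le_self 2 hfl0
    exact le_trans (by exact_mod_cast this) (Nat.floor_le (by positivity))
  have hu2 : Y < (2 : ℝ) ^ (u + 1) := by
    have : ⌊Y⌋₊ + 1 ≤ 2 ^ (u + 1) := Nat.lt_pow_succ_log_self (by norm_num) _
    exact lt_of_lt_of_le (Nat.lt_floor_add_one Y) (by exact_mod_cast this)
  obtain ⟨k, m, h1, h2, h3, h4⟩ := choose_scale (p := p) hm0pos hu0
  have hcm' : cm (m + 1) ≤ c := by
    have := Finset.single_le_sum (f := cm) (fun m _ => (hcm m).le)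
      (mem_range.mpr (show m + 1 < m0 * p + 1 by omega))
    linarith
  have h5 := hstep (m + 1) k P H hP0 hPd hH (by
    calc cm (m + 1) * H ≤ Y := mul_le_mul_of_nonneg_right hcm' hHpos.le
      _ < 2 ^ (u + 1) := hu2
      _ ≤ _ := pow_le_pow_right₀ (by norm_num) h4)
  refine lt_of_le_of_lt ?_ h5
  have h6 : (2 : ℝ) ^ ((κ * (m + 1 + M) + C) * p ^ k) ≤ Y ^ (w + 1) := by
    have h7 : (2 : ℝ) ^ (m * p ^ k) ≤ Y := (pow_le_pow_right₀ (by norm_num) h3).trans hu1
    refine le_trans ?_ (Real.rpow_le_rpow (by positivity) h7 hw1.le)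
    rw [← Real.rpow_natCast, ← Real.rpow_natCast, ← Real.rpow_mul (by norm_num)]
    refine Real.rpow_le_rpow_of_exponent_le (by norm_num) ?_
    push_cast
    have h8 : (m0 : ℝ) ≤ m := by exact_mod_cast h1
    have h9 : (κ * (m + 1 + M) + C : ℝ) ≤ m * (w + 1) := by nlinarith
    have h10 : (0 : ℝ) ≤ (p : ℝ) ^ k := by positivity
    nlinarith
  have h11 : c ^ (-(w + 1)) * H ^ (-w) = H * (Y ^ (w + 1))⁻¹ := by
    rw [hY, Real.mul_rpow (by linarith) hHpos.le, Real.rpow_neg (by linarith),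
      Real.rpow_neg hHpos.le, Real.rpow_add hHpos, Real.rpow_one]
    field_simp
  rw [h11, one_div, inv_pow]
  exact mul_le_mul_of_nonneg_left (inv_anti₀ (by positivity) h6) hHpos.le

end Pool.Agent.MP_6428c8_nt.H77
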